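import Pool.Agent.H75.OM.TC

/-!
# Omnipotent for quantum computers, useless for circuits: module targets, parts D and E
-/

set_option autoImplicit false

namespace Pool.Agent.H75.OM

open Finset Pool.Agent.H6.NB Pool.Agent.H70.OQ Pool.Agent.H70.EH Pool.Agent.H70.EI Pool.Agent.H78.XQ

/-! ## Part D: random oracles do not help -/

/-- BIN: the largest term of the binomial distribution. -/
def T_BIN : Prop := ∀ N W : ℕ, W ≤ N → N ^ N ≤ (N + 1) * (N.choose W * (W ^ W * (N - W) ^ (N - W)))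

/-- DOM: the correction string of weight `W` is dominated by random bits. -/
def T_DOM : Prop := ∀ (q l R n : ℕ) (b : Bool)
  (c : ((Fin (2 * l) → Bool) → VV q → Bool) × ((Fin n → Bool) → Bool)),
  mB q l R n b c ≤ ((2 : ℝ) ^ n + 1) * ((∏ u, mv b q (c.1 u)) *
    mn fun y : (Fin n → Bool) × Fin n → Bool => bi (decide (c.2 =
      crs n (wt0 q R n b c.1) fun z i => if h : i < n then y (z, ⟨i, h⟩) else false)))

/-- UP1: random bits with many names, and a domination for each coordinate. -/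
def T_UP1 : Prop := ∀ (I : Type) [Fintype I] [DecidableEq I] (T : I → Type) [∀ i, Fintype (T i)]
  (Z : I → Type) [∀ i, Fintype (Z i)] [∀ i, DecidableEq (Z i)] (G Y : Type) [Fintype G]
  [DecidableEq G] [Fintype Y] [DecidableEq Y] (u v : ∀ i, T i → ℝ) (C : I → ℝ)
  (τ : ∀ i, T i → (Z i → Bool) → T i) (ιG : G → Y) (ιZ : ∀ i, Z i → Y)
  (Φ : (∀ i, T i) → (G → Bool) → ℝ),
  Function.Injective (Sum.elim ιG fun a : (i : I) × Z i => ιZ a.1 a.2) →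
  (∀ i p, 0 ≤ v i p) → (∀ i, 0 ≤ C i) → (∀ i p, 0 ≤ u i p) → (∀ P g, 0 ≤ Φ P g) →
  (∀ (i : I) (F : T i → ℝ), (∀ p, 0 ≤ F p) →
    ∑ p, u i p * F p ≤ C i * ∑ p, v i p * mn fun z => F (τ i p z)) →
  ∑ P : (∀ i, T i), (∏ i, u i (P i)) * mn (fun g => Φ P g) ≤
    (∏ i, C i) * ∑ P : (∀ i, T i), (∏ i, v i (P i)) *
      mn fun y : Y → Bool => Φ (fun i => τ i (P i) fun z => y (ιZ i z)) fun g => y (ιG g)

/-- SWP: blocks with uniformly distributed contents are absorbed by the default. -/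
def T_SWP : Prop := ∀ (V : ℕ → ATM) (W : ℕ → Hm) (ρ : ℕ → ℕ), Rho W ρ → ∀ (E : Finset Ix)
  (O : (∀ i : {a // a ∈ E}, Cx V W ρ i.1) → (List Bool → Bool) → List Bool → Bool),
  IsY V W ρ E O → ∀ (Λ : ℕ) (Lo : Ix → Prop)
    (u : ∀ i : {a // a ∈ E}, Cx V W ρ i.1 → ℝ) (F : (List Bool → Bool) → ℝ),
  (∀ p, Sum.inl p ∈ E → ∀ w, BPos V p w → w.length ≤ Λ) →
  (∀ (p : ℕ × List Bool) (h : Sum.inl p ∈ E), ¬ Lo (.inl p) →
    ∀ c, u ⟨.inl p, h⟩ c = wg0 V W ρ (.inl p) c) →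
  (∀ g g' : List Bool → Bool, (∀ w, w.length ≤ Λ → g w = g' w) → F g = F g') →
  ∑ P : (∀ i : {a // a ∈ E}, Cx V W ρ i.1), (∏ i, u i (P i)) *
      mn (fun g : St Λ → Bool => F (O P (ex Λ g))) =
    ∑ P : (∀ i : {a // a ∈ E}, Cx V W ρ i.1), (∏ i, u i (P i)) *
      mn (fun g : St Λ → Bool => F (OC V W ρ E Lo O P (ex Λ g)))

/-- SPC: the oracle has a small description. -/
def T_SPC : Prop := ∀ (e s₀ : ℕ → ℕ), Num e s₀ → ∀ (V : ℕ → ATM) (W : ℕ → Hm) (ρ : ℕ → ℕ)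
  (R : ℕ → Rq), Sep e s₀ W ρ R → ∀ (E : Finset Ix)
  (O : (∀ i : {a // a ∈ E}, Cx V W ρ i.1) → (List Bool → Bool) → List Bool → Bool),
  IsY V W ρ E O → ∀ (a : ℕ) (Lo : Ix → Prop) (κ : Ix → Bool) (P : ∀ i : {a // a ∈ E}, Cx V W ρ i.1),
  (∀ i ∈ E, Lo i → key V ρ i ≤ (R a).σ) →
  ∃ p : Spc, p.Small (omg (lam (R a).k (R a).s)) (dic (R a).k (R a).s) ∧
    ∀ (y : List Bool → ℕ → Bool) (w : List Bool), w.length ≤ (R a).s →
      OC V W ρ E Lo O (cor V W ρ E Lo κ P y) (fun w => y w 0) w = OSp p y w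

/-- LFC: an oracle with a description is a formula of the random bits. -/
def T_LFC : Prop := ∀ (S s ω D₀ : ℕ) (p : Spc) (w : List Bool), p.Small ω D₀ → 2 ^ (ω + 1) ≤ S →
  w.length ≤ s → Cl (St s × Fin (ω + 1)) S 2 fun y => OSp p (ex2 s ω y) w

open Classical in
/-- NWP: random bits do not help for a hard language. -/
def T_NWP : Prop := ∀ (k n s e : ℕ) (L : Set (List Bool)) (p : Spc), NumOK k s e → n ≤ s →
  ¬ HasP k n (s ^ e) L → p.Small (omg (lam k s)) (dic k s) →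
  mn (fun y : St s × Fin (omg (lam k s) + 1) → Bool =>
    bi (decide (Has k n s (OSp p (ex2 s (omg (lam k s)) y)) L))) ≤ 1 / 2 ^ (3 * s)

open Classical in
/-- UPC: the contents of the blocks in `Lo` are replaced by random bits. -/
def T_UPC : Prop := ∀ (V : ℕ → ATM) (W : ℕ → Hm) (ρ : ℕ → ℕ), Rho W ρ → ∀ (E : Finset Ix)
  (O : (∀ i : {a // a ∈ E}, Cx V W ρ i.1) → (List Bool → Bool) → List Bool → Bool),
  IsY V W ρ E O → ∀ (Λ ω : ℕ) (Lo : Ix → Prop) (κ : Ix → Bool) (F : (List Bool → Bool) → ℝ),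
  (∀ p, Sum.inl p ∈ E → ∀ w, BPos V p w → w.length ≤ Λ) →
  (∀ p, Sum.inl p ∈ E → Lo (.inl p) → wln (hm V p) ≤ ω) → (∀ g, 0 ≤ F g) →
  ∃ v : ∀ i : {a // a ∈ E}, Cx V W ρ i.1 → ℝ, (∀ i c, 0 ≤ v i c) ∧ (∀ i, ∑ c, v i c ≤ 1) ∧
    ∑ P : (∀ i : {a // a ∈ E}, Cx V W ρ i.1),
      (∏ i, (if Lo i.1 then wgX V W ρ (κ i.1) i.1 (P i) else wg0 V W ρ i.1 (P i))) *
        mn (fun g : St Λ → Bool => F (OC V W ρ E Lo O P (ex Λ g))) ≤
    2 ^ ((ω + 1) * (E.filter fun i => Lo i).card) *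
      ∑ P : (∀ i : {a // a ∈ E}, Cx V W ρ i.1), (∏ i, v i (P i)) *
        mn (fun y : St Λ × Fin (ω + 1) → Bool => F (OC V W ρ E Lo O
          (cor V W ρ E Lo κ P (ex2 Λ ω y)) fun w => ex2 Λ ω y w 0))

open Classical in
/-- UPB: the probability that a requirement is not satisfied. -/
def T_UPB : Prop := ∀ (e s₀ : ℕ → ℕ), Num e s₀ → ∀ (V : ℕ → ATM) (W : ℕ → Hm) (ρ : ℕ → ℕ)
  (R : ℕ → Rq), Sep e s₀ W ρ R → ∀ (E : Finset Ix)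
  (O : (∀ i : {a // a ∈ E}, Cx V W ρ i.1) → (List Bool → Bool) → List Bool → Bool),
  IsY V W ρ E O → ∀ (a Λ : ℕ) (Lo : Ix → Prop) (κ : Ix → Bool), (R a).s ≤ Λ →
  (∀ p, Sum.inl p ∈ E → ∀ w, BPos V p w → w.length ≤ Λ) →
  (∀ i ∈ E, Lo i → key V ρ i ≤ (R a).σ) →
  ∑ P : (∀ i : {a // a ∈ E}, Cx V W ρ i.1),
    (∏ i, (if Lo i.1 then wgX V W ρ (κ i.1) i.1 (P i) else wg0 V W ρ i.1 (P i))) *
      mn (fun g : St Λ → Bool => bi (decide (¬ (R a).ok (O P (ex Λ g))))) ≤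
    1 / 2 ^ (2 * (R a).s)

/-! ## Part E: the fixed point and the assembly -/

open Classical in
/-- FX4: the answers can be written into the oracle, and the requirements can be satisfied. -/
def T_FX4 : Prop := ∀ (I : Type) [Fintype I] [DecidableEq I] (T : I → Type) [∀ j, Fintype (T j)]
  (ord : I → ℕ) (m₀ : ∀ j, T j → ℝ) (m : Bool → ∀ j, T j → ℝ)
  (f : (∀ j, T j) → I → Bool) (A C : I → Prop) (ε τ : I → ℝ), Function.Injective ord →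
  (∀ j p, 0 ≤ m₀ j p) → (∀ j, ∑ p, m₀ j p = 1) → (∀ b j p, 0 ≤ m b j p) →
  (∀ b j, ∑ p, m b j p ≤ 1) → (∀ j, 0 ≤ ε j) → (∀ j, 0 ≤ τ j) →
  (∀ j, A j → ∀ (κ : I → Bool) (P : ∀ j, T j),
    (1 - ε j) * ∑ p, m₀ j p *
      (if ∀ i, ord i ≤ ord j → f (Function.update P j p) i = κ i then 1 else 0) - τ j ≤
    ∑ p, m (κ j) j p *
      (if ∀ i, ord i ≤ ord j → f (Function.update P j p) i = κ i then 1 else 0)) →
  (∀ j, ¬ A j → ¬ C j → ∀ P : ∀ j, T j,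
    (∀ i, ord i < ord j → ∀ p, f (Function.update P j p) i = f P i) ∧
    1 / 4 ≤ ∑ p, m (f (Function.update P j p) j) j p) →
  (∀ j, ¬ A j → C j → (∀ p, m true j p = m₀ j p) ∧ ∀ κ : I → Bool,
    ∑ P : (∀ j, T j), (∏ i, (if ord i < ord j then m (κ i) i (P i) else m₀ i (P i))) *
      (if f P j = false then 1 else 0) ≤ τ j) →
  ∑ j, (ε j + 8 ^ (univ.filter fun i => ord i ≤ ord j).card * τ j) < 1 →
  ∃ P, ∀ j, 0 < m (f P j) j (P j)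

/-- ISY: the oracle exists. -/
def T_ISY : Prop := ∀ (V : ℕ → ATM) (W : ℕ → Hm) (ρ : ℕ → ℕ), Rho W ρ → ∀ E : Finset Ix,
  ∃ O, IsY V W ρ E O

open Classical in
/-- ASY: the step of an instance. -/
def T_ASY : Prop := ∀ (e s₀ : ℕ → ℕ) (V : ℕ → ATM) (W : ℕ → Hm) (ρ : ℕ → ℕ) (R : ℕ → Rq),
  Sep e s₀ W ρ R → ∀ (E : Finset Ix)
  (O : (∀ i : {a // a ∈ E}, Cx V W ρ i.1) → (List Bool → Bool) → List Bool → Bool),
  IsY V W ρ E O → ∀ (g : List Bool → Bool) (P : ∀ i : {a // a ∈ E}, Cx V W ρ i.1)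
    (p : ℕ × List Bool) (h : Sum.inl p ∈ E) (J : Finset {a // a ∈ E}) (κ : {a // a ∈ E} → Bool)
    (J' : Finset ℕ) (κ' : ℕ → Bool) (b : Bool),
  (∀ i ∈ J, key V ρ i.1 ≤ key V ρ (.inl p)) → (∀ a ∈ J', (R a).σ ≤ key V ρ (.inl p)) →
  (1 - (1 / 8) ^ key V ρ (.inl p) / 4) *
    ∑ c : CP V p, m0 (qs (hm V p)) (hm V p).length (wln (hm V p)) c *
      (if (∀ i ∈ J, decide (ansr V W ρ (O (Function.update P ⟨.inl p, h⟩ c) g) i.1) = κ i) ∧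
        (∀ a ∈ J', decide ((R a).ok (O (Function.update P ⟨.inl p, h⟩ c) g)) = κ' a)
        then 1 else 0) -
    (1 / 8) ^ key V ρ (.inl p) / (4 * 2 ^ (2 * 2 ^ key V ρ (.inl p))) ≤
  ∑ c : CP V p, mB (qs (hm V p)) (hm V p).length (rns (hm V p)) (wln (hm V p)) b c *
      (if (∀ i ∈ J, decide (ansr V W ρ (O (Function.update P ⟨.inl p, h⟩ c) g) i.1) = κ i) ∧
        (∀ a ∈ J', decide ((R a).ok (O (Function.update P ⟨.inl p, h⟩ c) g)) = κ' a)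
        then 1 else 0)

/-- NOY: the requirements of smaller size do not depend on the table. -/
def T_NOY : Prop := ∀ (e s₀ : ℕ → ℕ) (V : ℕ → ATM) (W : ℕ → Hm) (ρ : ℕ → ℕ) (R : ℕ → Rq),
  Sep e s₀ W ρ R → ∀ (E : Finset Ix)
  (O : (∀ i : {a // a ∈ E}, Cx V W ρ i.1) → (List Bool → Bool) → List Bool → Bool),
  IsY V W ρ E O → ∀ (g : List Bool → Bool) (P : ∀ i : {a // a ∈ E}, Cx V W ρ i.1)
    (a : ℕ) (h : Sum.inr a ∈ E) (b : ℕ), (R b).σ ≤ ρ a → ∀ c : Ct V W ρ (.inr a),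
    ((R b).ok (O (Function.update P ⟨.inr a, h⟩ c) g) ↔ (R b).ok (O P g))

/-- NMA: the first three numerical conditions. -/
def T_NMA : Prop := ∀ k : ℕ, ∃ s₀, ∀ s, s₀ ≤ s → omg (lam k s) ≤ s ∧
  s + omg (lam k s) + 2 ≤ 2 ^ mm k s ∧
  ∀ σ : ℕ, σ ^ 3 ≤ 4 * (k + 13) * (mm k s + k + 24) →
    2 ^ σ * (omg (lam k s) + 1) ≤ s ∧ 2 * 2 ^ σ + 3 * σ + 5 ≤ s

/-- NMB: the last numerical condition. -/
def T_NMB : Prop := ∀ k : ℕ, ∃ e s₀, ∀ s, s₀ ≤ s → omg (lam k s) ≤ s →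
  ∃ l w : ℕ, 1 ≤ l ∧ 1 ≤ w ∧ 4 * w * (128 * w) ^ (k + 15) ≤ 2 ^ l ∧
    (2 : ℝ) ^ (s + omg (lam k s) + 2) * (2 * (er (2 ^ 2 ^ mm k s) (k + 14) w +
      4 * Real.exp (-(2 ^ l * rt w (k + 14) ^ 2 / 16)))) ≤ 1 / 2 ^ (3 * s) ∧
    s * (siz s (omg (lam k s)) l (dic k s) + 1) ≤ s ^ e

/-- STG: the sizes of the tables and of the requirements. -/
def T_STG : Prop := ∀ (e s₀ : ℕ → ℕ) (W : ℕ → Hm) (S : ℕ → ℕ → ℕ) (L : ℕ → Set (List Bool))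
  (T : ℕ → ℕ × ℕ × ℕ), (∀ i n, n ≤ S i n) → ∃ (ρ : ℕ → ℕ) (R : ℕ → Rq), Sep e s₀ W ρ R ∧
    ∀ a i j k, T a = (i, j, k) → (∀ c, ∃ n, ¬ HasP k n (S i n ^ e k + c) (L j)) →
      (R a).act ∧ (R a).k = k ∧ (R a).s = S i (R a).n ∧ (R a).L = L j

/-- EX4: finitely many indices and requirements. -/
def T_EX4 : Prop := ∀ (e s₀ : ℕ → ℕ), Num e s₀ → ∀ (V : ℕ → ATM) (W : ℕ → Hm) (ρ : ℕ → ℕ)
  (R : ℕ → Rq), Sep e s₀ W ρ R → ∀ (E : Finset Ix) (F : Finset ℕ),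
  ∃ O, (∀ i ∈ E, goodX V W ρ O i) ∧ ∀ a ∈ F, (R a).ok O

/-- FI4: the theorem. -/
def T_FI4 : Prop := ∃ e : ℕ → ℕ, ∀ (V : ℕ → ATM) (W : ℕ → (k : ℕ) × Machine (k + 1))
  (S : ℕ → ℕ → ℕ) (L : ℕ → Set (List Bool)), (∀ i n, n ≤ S i n) → ∃ O : List Bool → Bool,
  (∀ i x, (x ∈ (V i).lang O → (exact (home (V i) i x)).prob O = 1) ∧
    (x ∉ (V i).lang O → (exact (home (V i) i x)).prob O = 0)) ∧
  (∀ a, (W a).2.lang O ≠ plang ((W a).1 + 1) O) ∧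
  ∀ i j k, (∀ n, Has k n (S i n) O (L j)) → ∃ c, ∀ n, HasP k n (S i n ^ e k + c) (L j)

end Pool.Agent.H75.OM
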