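import Pool.Agent.H75.OM.Defs

/-!
# Omnipotent for quantum computers, useless for circuits: module targets, parts A and B
-/

set_option autoImplicit false

namespace Pool.Agent.H75.OM

open Finset Pool.Agent.H6.NB Pool.Agent.H70.OQ Pool.Agent.H70.EH Pool.Agent.H70.EI Pool.Agent.H78.XQ
open Pool.Agent.H68.AC (PA Wt fd Ext ind)

/-! ## Part A: a pair of formulas does not see a block -/

/-- COM: the rounds of a random restriction can be merged into one round. -/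
def T_COM : Prop := ∀ (V : Type) [Fintype V] [DecidableEq V] (Φ : PA V → ℝ),
  (∀ (d : ℕ) (q : ℝ), ∑ R : Fin d → PA V, Wt q (1 / 2) R * Φ (fd R d) =
    ∑ R : Fin 1 → PA V, Wt (q ^ d) (1 / 2) R * Φ (fd R 1)) ∧
  ∀ q q' : ℝ, ∑ R : Fin 1 → PA V, Wt q (1 / 2) R * (∑ R' : Fin 1 → PA V, Wt q' (1 / 2) R' *
      Φ (Pool.Agent.H68.AC.mrg (fd R 1) (fd R' 1))) =
    ∑ R : Fin 1 → PA V, Wt (q * q') (1 / 2) R * Φ (fd R 1)

/-- SW2: one random restriction turns the conjunction of two formulas into a decision tree. -/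
def T_SW2 : Prop := ∀ (V : Type) [Fintype V] [DecidableEq V] (S₁ d₁ w₁ S₂ d₂ w₂ : ℕ)
  (g h : (V → Bool) → Bool), 1 ≤ w₁ → 1 ≤ w₂ → Cl V S₁ (d₁ + 1) g → Cl V S₂ (d₂ + 1) h →
  ∃ Bad : (Fin 1 → PA V) → Prop,
    (∑ R, Wt (rt w₁ d₁ * rt w₂ d₂) (1 / 2) R * ind (Bad R) ≤ er S₁ d₁ w₁ + er S₂ d₂ w₂) ∧
    ∀ R, ¬ Bad R → ∃ t : Pool.Agent.H68.AC.DT V, t.depth ≤ w₁ + w₂ ∧
      ∀ y, Ext (fd R 1) y → (g y && h y) = t.eval y

/-- RLP: the second level of the Fourier spectrum of a conjunction, relative to its mean. -/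
def T_RLP : Prop := ∀ (V : Type) [Fintype V] [DecidableEq V] (S₁ d₁ w₁ S₂ d₂ w₂ : ℕ)
  (g h : (V → Bool) → Bool), 1 ≤ w₁ → 1 ≤ w₂ → Cl V S₁ (d₁ + 1) g → Cl V S₂ (d₂ + 1) h →
  L12 (fun y => bi (g y && h y)) ≤ ir w₁ d₁ w₂ d₂ ^ 2 *
    (((w₁ : ℝ) + w₂) ^ 2 * mn (fun y => bi (g y && h y)) +
      (Fintype.card V : ℝ) ^ 2 * (er S₁ d₁ w₁ + er S₂ d₂ w₂))

/-- HW2: a conjunction on strings of given weight. -/
def T_HW2 : Prop := ∀ (V : Type) [Fintype V] [DecidableEq V] [Nonempty V]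
  (S₁ d₁ w₁ S₂ d₂ w₂ W : ℕ) (δ : ℝ) (g h : (V → Bool) → Bool), 1 ≤ w₁ → 1 ≤ w₂ → 0 ≤ δ →
  Cl V S₁ (d₁ + 1) g → Cl V S₂ (d₂ + 1) h →
  |(W : ℝ) - Fintype.card V / 2| ≤ δ * Fintype.card V →
  (1 - (12 * ((w₁ : ℝ) + w₂) * δ + 4 * ((w₁ : ℝ) + w₂) ^ 2 / Fintype.card V) *
      ir w₁ d₁ w₂ d₂) * mn (fun y => bi (g y && h y)) -
    (er S₁ d₁ w₁ + er S₂ d₂ w₂ + 4 * Real.exp (-(Fintype.card V * δ ^ 2 / 4))) ≤
  wm (fun _ => none) W fun y => bi (g y && h y)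

/-- NU4: estimates for the error terms. -/
def T_NU4 : Prop := ∀ r l q R n S₂ d₂ w₂ : ℕ, Sz r l q R n → Sz2 r S₂ d₂ w₂ → ∀ w e I : ℝ,
  w = ((4 ^ r ^ 2 : ℕ) : ℝ) + w₂ → e = er (2 ^ 2 ^ r ^ 2) (r + 1) (4 ^ r ^ 2) + er S₂ d₂ w₂ →
  I = ir (4 ^ r ^ 2) (r + 1) w₂ d₂ →
  I ^ 2 * w ^ 2 ≤ √(2 ^ q) ∧
  (2 : ℝ) ^ (2 * l) * (I ^ 2 * w ^ 2 / √(2 ^ q)) ≤ (1 / 8) ^ r / 8 ∧
  (2 : ℝ) ^ (2 * 2 ^ r) *
    ((2 : ℝ) ^ (2 * l) * (I ^ 2 * ((2 * 2 ^ q) ^ 2 * e) + 1 / 2 ^ 2 ^ (q - 2)) +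
      Real.exp (-((2 : ℝ) ^ (2 * l) * eps2 q ^ 2 / 64))) ≤ (1 / 8) ^ r / 8 ∧
  (2 : ℝ) ^ (2 * 2 ^ r) * Real.exp (-(2 ^ (2 * l) * (1 / 2 ^ l) / 2)) ≤ (1 / 8) ^ r / 16

/-- NU5: estimates for the error terms. -/
def T_NU5 : Prop := ∀ r l q R n S₂ d₂ w₂ : ℕ, Sz r l q R n → Sz2 r S₂ d₂ w₂ → ∀ w e I : ℝ,
  w = ((4 ^ r ^ 2 : ℕ) : ℝ) + w₂ → e = er (2 ^ 2 ^ r ^ 2) (r + 1) (4 ^ r ^ 2) + er S₂ d₂ w₂ →
  I = ir (4 ^ r ^ 2) (r + 1) w₂ d₂ →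
  (12 * w * (R / 2 ^ l) + 4 * w ^ 2 / 2 ^ n) * I ≤ (1 / 8) ^ r / 8 ∧
  (2 : ℝ) ^ (2 * 2 ^ r) * (e + 4 * Real.exp (-(2 ^ n * (R / 2 ^ l) ^ 2 / 4))) ≤ (1 / 8) ^ r / 8

open Classical in
/-- RI2: a pair of formulas does not see the copies. -/
def T_RI2 : Prop := ∀ r l q R n S₂ d₂ w₂ : ℕ, Sz r l q R n → Sz2 r S₂ d₂ w₂ → ∀ (b : Bool)
  (g h : ((Fin (2 * l) → Bool) → VV q → Bool) → Bool),
  (∀ P u, Cl (VV q) (2 ^ 2 ^ r ^ 2) (r + 2) fun c => g (Function.update P u c)) →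
  (∀ P u, Cl (VV q) S₂ (d₂ + 1) fun c => h (Function.update P u c)) →
  (1 - (1 / 8) ^ r / 8) * ∑ P, (∏ u, mv false q (P u)) * bi (g P && h P) -
      (1 / 8) ^ r / (8 * 2 ^ (2 * 2 ^ r)) ≤
    ∑ P, (if SayX q l b P then ∏ u, mv b q (P u) else 0) * bi (g P && h P)

/-- HX2: a pair of formulas does not see the correction string. -/
def T_HX2 : Prop := ∀ r l q R n S₂ d₂ w₂ : ℕ, Sz r l q R n → Sz2 r S₂ d₂ w₂ → ∀ (b : Bool)
  (P : (Fin (2 * l) → Bool) → VV q → Bool), SayX q l b P → ∃ W : ℕ,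
    (W : ℝ) / 2 ^ n = (if b then 1 / 2 else 3 / 2) - kap q R P ∧ W ≤ 2 ^ n ∧
    ∀ g h : ((Fin n → Bool) → Bool) → Bool, Cl (Fin n → Bool) (2 ^ 2 ^ r ^ 2) (r + 2) g →
      Cl (Fin n → Bool) S₂ (d₂ + 1) h →
      (1 - (1 / 8) ^ r / 8) * mn (fun z => bi (g z && h z)) -
          (1 / 8) ^ r / (8 * 2 ^ (2 * 2 ^ r)) ≤
        wm (fun _ => none) W fun z => bi (g z && h z)

/-- BL2: a pair of formulas does not see the block. -/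
def T_BL2 : Prop := ∀ r l q R n S₂ d₂ w₂ : ℕ, Sz r l q R n → Sz2 r S₂ d₂ w₂ → ∀ (b : Bool)
  (g h : ((Fin (2 * l) → Bool) → VV q → Bool) × ((Fin n → Bool) → Bool) → Bool),
  (∀ P u z, Cl (VV q) (2 ^ 2 ^ r ^ 2) (r + 2) fun c => g (Function.update P u c, z)) →
  (∀ P, Cl (Fin n → Bool) (2 ^ 2 ^ r ^ 2) (r + 2) fun z => g (P, z)) →
  (∀ P u z, Cl (VV q) S₂ (d₂ + 1) fun c => h (Function.update P u c, z)) →
  (∀ P, Cl (Fin n → Bool) S₂ (d₂ + 1) fun z => h (P, z)) →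
  (1 - (1 / 8) ^ r / 4) * ∑ c, m0 q l n c * bi (g c && h c) -
      (1 / 8) ^ r / (4 * 2 ^ (2 * 2 ^ r)) ≤
    ∑ c, mB q l R n b c * bi (g c && h c)

/-- NS2: the sizes of the second formula. -/
def T_NS2 : Prop := (∀ m k σ r : ℕ, 20 * (k + 13) ≤ σ → (k + 13) * (m + k + 24) ≤ σ ^ 3 → σ ≤ r →
    ∃ w₂, Sz2 r (2 ^ 2 ^ m) (k + 10) w₂) ∧
  ∀ r : ℕ, 20 ≤ r → ∃ w₂, Sz2 r 2 0 w₂

/-! ## Part B: the generator -/

/-- MNS: the class of formulas is monotone. -/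
def T_MNS : Prop := ∀ (V : Type) (S S' d d' : ℕ) (f : (V → Bool) → Bool), Cl V S d f → S ≤ S' →
  d ≤ d' → 1 ≤ S' → Cl V S' d' f

/-- CPS: composition of formulas. -/
def T_CPS : Prop := ∀ (V X : Type) (S d e : ℕ) (f : (V → Bool) → Bool)
  (g : V → (X → Bool) → Bool), 1 ≤ S → Cl V S e f → (∀ v, Cl X S d (g v)) →
  Cl X S (d + e) fun y => f fun v => g v y

/-- DNF: a function of few variables is a formula of depth two. -/
def T_DNF : Prop := ∀ (V : Type) (A : Finset V) (S : ℕ) (f : (V → Bool) → Bool),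
  2 ^ A.card ≤ S → (∀ y y', (∀ v ∈ A, y v = y' v) → f y = f y') → Cl V S 2 f

/-- PAR: formulas are not correlated with the parity. -/
def T_PAR : Prop := ∀ (V : Type) [Fintype V] [DecidableEq V] (S d w : ℕ) (f : (V → Bool) → Bool),
  1 ≤ w → 4 * w * (128 * w) ^ (d + 1) ≤ Fintype.card V → Cl V S (d + 1) f →
  |mn fun y => sg (par y) * bi (f y)| ≤
    er S d w + 4 * Real.exp (-(Fintype.card V * rt w d ^ 2 / 16))

/-- DES: the linear maps exist. -/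
def T_DES : Prop := ∀ l N : ℕ, 1 ≤ l → ∃ M : (Fin l → Bool) → Fin N → Fin l → Bool, Des M

/-- NWH: one bit of the output of the generator is replaced by a random bit. -/
def T_NWH : Prop := ∀ (l N S d w : ℕ) (M : (Fin l → Bool) → Fin N → Fin l → Bool) (X : Type)
  [Fintype X] [DecidableEq X] (e : X → Fin N → Bool) (f : (X → Bool) → Bool) (A : Finset X) (x : X),
  Des M → 1 ≤ w → 4 * w * (128 * w) ^ (d + 3) ≤ 2 ^ l → 2 ^ N ≤ S → Function.Injective e →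
  Cl X S (d + 1) f → x ∉ A →
  mn (fun y : X ⊕ (Fin l → Bool) × (Fin l → Bool) → Bool => bi (f fun x' =>
      if x' ∈ insert x A then y (.inl x') else gen M (fun c => y (.inr c)) (e x'))) ≤
    mn (fun y : X ⊕ (Fin l → Bool) × (Fin l → Bool) → Bool => bi (f fun x' =>
      if x' ∈ A then y (.inl x') else gen M (fun c => y (.inr c)) (e x'))) +
    2 * (er S (d + 2) w + 4 * Real.exp (-(2 ^ l * rt w (d + 2) ^ 2 / 16)))

/-- NWG: a formula does not distinguish the output of the generator from random bits. -/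
def T_NWG : Prop := ∀ (l N S d w : ℕ) (M : (Fin l → Bool) → Fin N → Fin l → Bool) (X : Type)
  [Fintype X] [DecidableEq X] (e : X → Fin N → Bool) (f : (X → Bool) → Bool),
  Des M → 1 ≤ w → 4 * w * (128 * w) ^ (d + 3) ≤ 2 ^ l → 2 ^ N ≤ S → Function.Injective e →
  Cl X S (d + 1) f →
  mn (fun y => bi (f y)) ≤
    mn (fun z : (Fin l → Bool) × (Fin l → Bool) → Bool => bi (f fun x => gen M z (e x))) +
    2 ^ N * (2 * (er S (d + 2) w + 4 * Real.exp (-(2 ^ l * rt w (d + 2) ^ 2 / 16))))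

/-- ENC: the code is injective. -/
def T_ENC : Prop := ∀ (s ω : ℕ) (w w' : List Bool) (i i' : ℕ), w.length ≤ s → w'.length ≤ s →
  i ≤ ω → i' ≤ ω → enc s ω w i = enc s ω w' i' → w = w' ∧ i = i'

/-- INJ: the mean of a function of some of the variables. -/
def T_INJ : Prop := ∀ (A B : Type) [Fintype A] [DecidableEq A] [Fintype B] [DecidableEq B]
  (ι : A → B) (F : (A → Bool) → ℝ), Function.Injective ι →
  mn (fun y : B → Bool => F fun a => y (ι a)) = mn F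

end Pool.Agent.H75.OM
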