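import Pool.Agent.H75.OM.TD
import Pool.Agent.H58.XQ.BLX
import Pool.Agent.H78.XQ.EX3

/-!
# UPC: the contents of the blocks in `Lo` are replaced by random bits
-/

set_option autoImplicit false

namespace Pool.Agent.H75.OM.UPC

open Finset Pool.Agent.H6.NB Pool.Agent.H70.OQ Pool.Agent.H70.EH Pool.Agent.H70.EI Pool.Agent.H78.XQ
open Pool.Agent.H75.OM

theorem bi_nonneg (b : Bool) : 0 ≤ bi b := by cases b <;> simp [bi]

theorem mn_mono {V : Type} [Fintype V] [DecidableEq V] {F G : (V → Bool) → ℝ}
    (h : ∀ y, F y ≤ G y) : mn F ≤ mn G :=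
  div_le_div_of_nonneg_right (Finset.sum_le_sum fun y _ => h y) (by positivity)

theorem mn_nonneg {V : Type} [Fintype V] [DecidableEq V] {F : (V → Bool) → ℝ}
    (h : ∀ y, 0 ≤ F y) : 0 ≤ mn F :=
  div_nonneg (Finset.sum_nonneg fun y _ => h y) (by positivity)

theorem crs_congr (n w : ℕ) (y y' : (Fin n → Bool) → ℕ → Bool) (h : ∀ z, ∀ i < n, y z i = y' z i) :
    crs n w y = crs n w y' := by
  funext z
  unfold crs thr
  congr 1
  have : ∑ i ∈ Finset.range n, (if y z i = true then 2 ^ i else 0) =
      ∑ i ∈ Finset.range n, (if y' z i = true then 2 ^ i else 0) :=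
    Finset.sum_congr rfl fun i hi => by rw [h z i (Finset.mem_range.1 hi)]
  rw [this]

/-- the random bits of one block -/
def rb {n : ℕ} (y : (Fin n → Bool) × Fin n → Bool) : (Fin n → Bool) → ℕ → Bool :=
  fun z i => if h : i < n then y (z, ⟨i, h⟩) else false

theorem dom_sum (hDOM : T_DOM) (hMUV : T_MUV) (q l R n : ℕ) (b : Bool)
    (F : ((Fin (2 * l) → Bool) → VV q → Bool) × ((Fin n → Bool) → Bool) → ℝ) (hF : ∀ c, 0 ≤ F c) :
    ∑ c, mB q l R n b c * F c ≤ ((2 : ℝ) ^ n + 1) *
      ∑ c : ((Fin (2 * l) → Bool) → VV q → Bool) × ((Fin n → Bool) → Bool),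
        (∏ u, mv b q (c.1 u)) / 2 ^ 2 ^ n *
          mn fun y => F (c.1, crs n (wt0 q R n b c.1) (rb y)) := by
  rw [Fintype.sum_prod_type, Fintype.sum_prod_type, Finset.mul_sum]
  refine Finset.sum_le_sum fun P _ => ?_
  have hP : 0 ≤ ∏ u, mv b q (P u) := Finset.prod_nonneg fun u _ => (hMUV b q).1 _
  have hN : (0 : ℝ) ≤ (2 : ℝ) ^ n + 1 := by positivity
  have h1 : ∀ h : (Fin n → Bool) → Bool, mB q l R n b (P, h) * F (P, h) ≤
      ((2 : ℝ) ^ n + 1) * ((∏ u, mv b q (P u)) *
        (mn fun y => bi (decide (h = crs n (wt0 q R n b P) (rb y))) * F (P, h))) := by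
    intro h
    have h2 := mul_le_mul_of_nonneg_right (hDOM q l R n b (P, h)) (hF (P, h))
    refine h2.trans (le_of_eq ?_)
    have e0 : ∀ y : (Fin n → Bool) × Fin n → Bool,
        rb y = fun z i => if h : i < n then y (z, ⟨i, h⟩) else false := fun _ => rfl
    simp only [e0]
    unfold mn
    rw [← Finset.sum_mul]
    ring
  refine (Finset.sum_le_sum fun h _ => h1 h).trans (le_of_eq ?_)
  rw [← Finset.mul_sum, ← Finset.mul_sum]
  congr 1
  have h3 : ∑ h : (Fin n → Bool) → Bool,
      (mn fun y => bi (decide (h = crs n (wt0 q R n b P) (rb y))) * F (P, h)) =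
      mn fun y => F (P, crs n (wt0 q R n b P) (rb y)) := by
    unfold mn
    rw [← Finset.sum_div, Finset.sum_comm]
    congr 1
    refine Finset.sum_congr rfl fun y _ => ?_
    rw [Finset.sum_eq_single (crs n (wt0 q R n b P) (rb y))]
    · simp [bi]
    · intro h _ hne
      simp [bi, hne]
    · intro h
      exact absurd (Finset.mem_univ _) h
  rw [h3]
  change _ = ∑ _h : (Fin n → Bool) → Bool, (∏ u, mv b q (P u)) / 2 ^ 2 ^ n *
    mn fun y => F (P, crs n (wt0 q R n b P) (rb y))
  rw [Finset.sum_const, Finset.card_univ, nsmul_eq_mul]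
  have hc : (Fintype.card ((Fin n → Bool) → Bool) : ℝ) = 2 ^ 2 ^ n := by
    rw [Fintype.card_fun, Fintype.card_fun, Fintype.card_bool, Fintype.card_fin]
    push_cast
    rfl
  rw [hc]
  have : (0 : ℝ) < 2 ^ 2 ^ n := by positivity
  field_simp

section

variable (V : ℕ → ATM) (W : ℕ → Hm) (ρ : ℕ → ℕ) (Lo : Ix → Prop) (κ : Ix → Bool)

/-- the index set of the random bits of a coordinate -/
def Zt : Ix → Type
  | .inl p => {_a : (Fin (wln (hm V p)) → Bool) × Fin (wln (hm V p)) // Lo (.inl p)}
  | .inr _ => Empty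

open Classical in
@[instance_reducible] noncomputable def fZt : (i : Ix) → Fintype (Zt V Lo i)
  | .inl p => inferInstanceAs
      (Fintype {_a : (Fin (wln (hm V p)) → Bool) × Fin (wln (hm V p)) // Lo (.inl p)})
  | .inr _ => inferInstanceAs (Fintype Empty)

@[instance_reducible] def dZt : (i : Ix) → DecidableEq (Zt V Lo i)
  | .inl p => inferInstanceAs
      (DecidableEq {_a : (Fin (wln (hm V p)) → Bool) × Fin (wln (hm V p)) // Lo (.inl p)})
  | .inr _ => inferInstanceAs (DecidableEq Empty)

noncomputable instance (i : Ix) : Fintype (Zt V Lo i) := fZt V Lo i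

instance (i : Ix) : DecidableEq (Zt V Lo i) := dZt V Lo i

open Classical in
/-- the new coordinate -/
noncomputable def ta : (i : Ix) → Cx V W ρ i → (Zt V Lo i → Bool) → Cx V W ρ i
  | .inl p => fun c y => if h : Lo (.inl p) then
      (((c : CP V p).1, crs (wln (hm V p))
        (wt0 (qs (hm V p)) (rns (hm V p)) (wln (hm V p)) (κ (.inl p)) (c : CP V p).1)
        (rb fun a => y (⟨a, h⟩ : {_a : (Fin (wln (hm V p)) → Bool) × Fin (wln (hm V p)) //
          Lo (.inl p)}))) : CP V p) else c
  | .inr _ => fun c _ => c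

open Classical in
/-- the new weight -/
noncomputable def vv : (i : Ix) → Cx V W ρ i → ℝ
  | .inl p => fun c => if Lo (.inl p) then
      (∏ u, mv (κ (.inl p)) (qs (hm V p)) ((c : CP V p).1 u)) / 2 ^ 2 ^ wln (hm V p)
      else wg0 V W ρ (.inl p) c
  | .inr a => fun c => if Lo (.inr a) then wgX V W ρ (κ (.inr a)) (.inr a) c
      else wg0 V W ρ (.inr a) c

open Classical in
/-- the factor -/
noncomputable def cc : Ix → ℝ
  | .inl p => if Lo (.inl p) then (2 : ℝ) ^ wln (hm V p) + 1 else 1
  | .inr _ => 1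

theorem vv_nonneg (h5 : T_MUV) (h6 : T_MAS) (i : Ix) (c : Cx V W ρ i) :
    0 ≤ vv V W ρ Lo κ i c := by
  rcases i with p | a
  · simp only [vv]
    split_ifs
    · exact div_nonneg (Finset.prod_nonneg fun u _ => (h5 _ _).1 _) (by positivity)
    · exact EX3.wg0_nonneg V W ρ h6 _ c
  · simp only [vv]
    split_ifs
    · exact EX3.wgX_nonneg V W ρ h6 _ _ c
    · exact EX3.wg0_nonneg V W ρ h6 _ c

theorem vv_sum (h5 : T_MUV) (h6 : T_MAS) (i : Ix) : ∑ c, vv V W ρ Lo κ i c ≤ 1 := by
  rcases i with p | a
  · by_cases h : Lo (.inl p)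
    · have e : ∑ c : Cx V W ρ (.inl p), vv V W ρ Lo κ (.inl p) c =
          ∑ c : CP V p, (∏ u, mv (κ (.inl p)) (qs (hm V p)) (c.1 u)) / 2 ^ 2 ^ wln (hm V p) := by
        refine Finset.sum_congr rfl fun c _ => ?_
        simp only [vv]
        rw [if_pos h]
      rw [e, Fintype.sum_prod_type]
      have hc : (Fintype.card ((Fin (wln (hm V p)) → Bool) → Bool) : ℝ) = 2 ^ 2 ^ wln (hm V p) := by
        rw [Fintype.card_fun, Fintype.card_fun, Fintype.card_bool, Fintype.card_fin]
        push_cast
        rfl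
      have e2 : ∀ P : (Fin (2 * (hm V p).length) → Bool) → VV (qs (hm V p)) → Bool,
          ∑ _h : (Fin (wln (hm V p)) → Bool) → Bool,
            (∏ u, mv (κ (.inl p)) (qs (hm V p)) (P u)) / 2 ^ 2 ^ wln (hm V p) =
          ∏ u, mv (κ (.inl p)) (qs (hm V p)) (P u) := by
        intro P
        rw [Finset.sum_const, Finset.card_univ, nsmul_eq_mul, hc]
        have : (0 : ℝ) < 2 ^ 2 ^ wln (hm V p) := by positivity
        field_simp
      simp only
      rw [Finset.sum_congr rfl fun P _ => e2 P]
      exact (Pool.Agent.H58.XQ.sum_prod_mv h5 _ _).le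
    · have e : ∑ c : Cx V W ρ (.inl p), vv V W ρ Lo κ (.inl p) c =
          ∑ c : Cx V W ρ (.inl p), wg0 V W ρ (.inl p) c := by
        refine Finset.sum_congr rfl fun c _ => ?_
        simp only [vv]
        rw [if_neg h]
      rw [e]
      exact (EX3.wg0_sum V W ρ h6 _).le
  · by_cases h : Lo (.inr a)
    · have e : ∑ c : Cx V W ρ (.inr a), vv V W ρ Lo κ (.inr a) c =
          ∑ c : Cx V W ρ (.inr a), wgX V W ρ (κ (.inr a)) (.inr a) c := by
        refine Finset.sum_congr rfl fun c _ => ?_
        simp only [vv]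
        rw [if_pos h]
      rw [e]
      exact EX3.wgX_sum V W ρ h6 _ _
    · have e : ∑ c : Cx V W ρ (.inr a), vv V W ρ Lo κ (.inr a) c =
          ∑ c : Cx V W ρ (.inr a), wg0 V W ρ (.inr a) c := by
        refine Finset.sum_congr rfl fun c _ => ?_
        simp only [vv]
        rw [if_neg h]
      rw [e]
      exact (EX3.wg0_sum V W ρ h6 _).le

theorem cc_nonneg (i : Ix) : 0 ≤ cc V Lo i := by
  rcases i with p | a
  · simp only [cc]
    split_ifs
    · positivity
    · exact zero_le_one
  · exact zero_le_one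

/-- the names of the random bits -/
def iz (E : Finset Ix) (Λ ω : ℕ)
    (hΛ : ∀ p, Sum.inl p ∈ E → ∀ w, BPos V p w → w.length ≤ Λ)
    (hω : ∀ p, Sum.inl p ∈ E → Lo (.inl p) → wln (hm V p) ≤ ω) :
    (i : {a // a ∈ E}) → Zt V Lo i.1 → St Λ × Fin (ω + 1)
  | ⟨.inl p, h⟩ => fun (a : {_a : (Fin (wln (hm V p)) → Bool) × Fin (wln (hm V p)) //
      Lo (.inl p)}) => (⟨wps (hm V p) (List.ofFn a.1.1), hΛ p h _ (Or.inr ⟨a.1.1, rfl⟩)⟩,
        ⟨a.1.2.1 + 1, Nat.succ_lt_succ (lt_of_lt_of_le a.1.2.2 (hω p h a.2))⟩)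
  | ⟨.inr _, _⟩ => fun (a : Empty) => a.elim

end

theorem pf_UPC (h1 : T_DOM) (h2 : T_UP1) (h3 : T_HMX) (h4 : Pool.Agent.H6.NB.T_COD)
    (h5 : T_MUV) (h6 : T_MAS) (h7 : T_INJ) : T_UPC := by
  classical
  intro V W ρ hρ E O hO Λ ω Lo κ F hΛ hω hF
  refine ⟨fun i => vv V W ρ Lo κ i.1, fun i c => vv_nonneg V W ρ Lo κ h5 h6 i.1 c,
    fun i => vv_sum V W ρ Lo κ h5 h6 i.1, ?_⟩
  have hinj : Function.Injective (Sum.elim (fun w : St Λ => ((w, 0) : St Λ × Fin (ω + 1)))
      fun a : (i : {a // a ∈ E}) × Zt V Lo i.1 => iz V Lo E Λ ω hΛ hω a.1 a.2) := by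
    rintro (w | ⟨⟨i, hi⟩, a⟩) (w' | ⟨⟨i', hi'⟩, a'⟩) hab
    · simp only [Sum.elim_inl, Prod.mk.injEq, and_true] at hab
      rw [hab]
    · exfalso
      rcases i' with p' | b'
      · have := congrArg Prod.snd hab
        simp only [Sum.elim_inl, Sum.elim_inr, iz] at this
        have := congrArg Fin.val this
        simp at this
      · exact (a' : Empty).elim
    · exfalso
      rcases i with p | b
      · have := congrArg Prod.snd hab
        simp only [Sum.elim_inl, Sum.elim_inr, iz] at this
        have := congrArg Fin.val this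
        simp at this
      · exact (a : Empty).elim
    · rcases i with p | b
      · rcases i' with p' | b'
        · have e1 := congrArg (fun x : St Λ × Fin (ω + 1) => x.1.1) hab
          have e2 := congrArg (fun x : St Λ × Fin (ω + 1) => x.2.1) hab
          simp only [Sum.elim_inr, iz] at e1 e2
          obtain ⟨h8, h9, -⟩ := h4.1 _ _ _ _ _ _ e1
          have hp : p = p' := h3.1 V p p' h8
          subst hp
          have hz := List.ofFn_injective h9
          have hj : a.1.2 = a'.1.2 := Fin.ext (by omega)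
          have ha : a = a' := Subtype.ext (Prod.ext hz hj)
          rw [ha]
        · exact (a' : Empty).elim
      · exact (a : Empty).elim
  have key := h2 {a // a ∈ E} (fun i => Cx V W ρ i.1) (fun i => Zt V Lo i.1) (St Λ)
    (St Λ × Fin (ω + 1))
    (fun i c => if Lo i.1 then wgX V W ρ (κ i.1) i.1 c else wg0 V W ρ i.1 c)
    (fun i => vv V W ρ Lo κ i.1) (fun i => cc V Lo i.1) (fun i => ta V W ρ Lo κ i.1)
    (fun w => (w, 0)) (iz V Lo E Λ ω hΛ hω) (fun P g => F (OC V W ρ E Lo O P (ex Λ g))) hinj
    (fun i c => vv_nonneg V W ρ Lo κ h5 h6 i.1 c) (fun i => cc_nonneg V Lo i.1)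
    (fun i c => by
      split_ifs
      · exact EX3.wgX_nonneg V W ρ h6 _ _ c
      · exact EX3.wg0_nonneg V W ρ h6 _ c)
    (fun P g => hF _)
    (by
      rintro ⟨i, hi⟩ G hG
      rcases i with p | a
      · by_cases hL : Lo (.inl p)
        · have h8 := dom_sum h1 h5 (qs (hm V p)) (hm V p).length (rns (hm V p)) (wln (hm V p))
            (κ (.inl p)) G hG
          refine le_trans (le_of_eq ?_) (h8.trans (le_of_eq ?_))
          · refine Finset.sum_congr rfl fun c _ => ?_
            dsimp only
            rw [if_pos hL]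
            rfl
          · have hc : cc V Lo (.inl p) = (2 : ℝ) ^ wln (hm V p) + 1 := by
              simp only [cc]
              rw [if_pos hL]
            dsimp only
            rw [hc]
            refine congrArg (fun t : ℝ => ((2 : ℝ) ^ wln (hm V p) + 1) * t) ?_
            refine Finset.sum_congr rfl fun c _ => ?_
            have hv : vv V W ρ Lo κ (.inl p) c =
                (∏ u, mv (κ (.inl p)) (qs (hm V p)) (c.1 u)) / 2 ^ 2 ^ wln (hm V p) := by
              simp only [vv]
              rw [if_pos hL]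
            rw [hv]
            refine congrArg (fun t : ℝ => (∏ u, mv (κ (.inl p)) (qs (hm V p)) (c.1 u)) /
              2 ^ 2 ^ wln (hm V p) * t) ?_
            have hι : Function.Injective
                (fun a : (Fin (wln (hm V p)) → Bool) × Fin (wln (hm V p)) =>
                  (⟨a, hL⟩ : {_a : (Fin (wln (hm V p)) → Bool) × Fin (wln (hm V p)) //
                    Lo (.inl p)})) := fun a b hab => congrArg Subtype.val hab
            have h9 := h7 _ _ _ (fun y => G (c.1, crs (wln (hm V p))
              (wt0 (qs (hm V p)) (rns (hm V p)) (wln (hm V p)) (κ (.inl p)) c.1) (rb y))) hι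
            rw [← h9]
            unfold mn
            have hcard : Fintype.card {_a : (Fin (wln (hm V p)) → Bool) × Fin (wln (hm V p)) //
                Lo (.inl p)} = Fintype.card (Zt V Lo (.inl p)) := Fintype.card_congr (Equiv.refl _)
            rw [hcard]
            refine congrArg (fun t : ℝ => t / 2 ^ Fintype.card (Zt V Lo (.inl p))) ?_
            refine Fintype.sum_equiv (Equiv.refl _) _ _ fun y => ?_
            simp only [ta]
            rw [dif_pos hL]
            rfl
        · refine le_of_eq ?_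
          have hc : cc V Lo (.inl p) = 1 := by
            simp only [cc]
            rw [if_neg hL]
          dsimp only
          rw [hc, one_mul]
          refine Finset.sum_congr rfl fun c _ => ?_
          have hv : vv V W ρ Lo κ (.inl p) c = wg0 V W ρ (.inl p) c := by
            simp only [vv]
            rw [if_neg hL]
          have ht : ∀ y, ta V W ρ Lo κ (.inl p) c y = c := by
            intro y
            simp only [ta]
            rw [dif_neg hL]
          rw [if_neg hL, hv]
          simp only [ht]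
          unfold mn
          rw [Finset.sum_const, Finset.card_univ, nsmul_eq_mul, Fintype.card_fun,
            Fintype.card_bool]
          have : (0 : ℝ) < 2 ^ Fintype.card (Zt V Lo (.inl p)) := by positivity
          push_cast
          field_simp
      · refine le_of_eq ?_
        dsimp only
        have hc : cc V Lo (.inr a) = 1 := rfl
        rw [hc, one_mul]
        refine Finset.sum_congr rfl fun c _ => ?_
        have hv : vv V W ρ Lo κ (.inr a) c =
          if Lo (.inr a) then wgX V W ρ (κ (.inr a)) (.inr a) c else wg0 V W ρ (.inr a) c := rfl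
        have ht : ∀ y, ta V W ρ Lo κ (.inr a) c y = c := fun y => rfl
        rw [hv]
        simp only [ht]
        unfold mn
        rw [Finset.sum_const, Finset.card_univ, nsmul_eq_mul, Fintype.card_fun,
          Fintype.card_bool]
        have : (0 : ℝ) < 2 ^ Fintype.card (Zt V Lo (.inr a)) := by positivity
        push_cast
        field_simp)
  refine key.trans ?_
  have hsame : ∀ (P : ∀ i : {a // a ∈ E}, Cx V W ρ i.1) (y : St Λ × Fin (ω + 1) → Bool),
      F (OC V W ρ E Lo O (fun i => ta V W ρ Lo κ i.1 (P i) fun z => y (iz V Lo E Λ ω hΛ hω i z))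
        (ex Λ fun w => y (w, 0))) =
      F (OC V W ρ E Lo O (cor V W ρ E Lo κ P (ex2 Λ ω y)) fun w => ex2 Λ ω y w 0) := by
    intro P y
    have e1 : (ex Λ fun w => y (w, 0)) = fun w => ex2 Λ ω y w 0 := by
      funext w
      unfold ex ex2
      by_cases hw : w.length ≤ Λ
      · rw [dif_pos hw, dif_pos ⟨hw, Nat.succ_pos ω⟩]
        rfl
      · rw [dif_neg hw, dif_neg (fun h => hw h.1)]
    have e2 : (fun i : {a // a ∈ E} => ta V W ρ Lo κ i.1 (P i)
        fun z => y (iz V Lo E Λ ω hΛ hω i z)) = cor V W ρ E Lo κ P (ex2 Λ ω y) := by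
      funext i
      obtain ⟨i, hi⟩ := i
      rcases i with p | a
      · by_cases hL : Lo (.inl p)
        · simp only [ta, cor]
          rw [dif_pos hL, if_pos hL]
          refine congrArg (fun t => (((P ⟨.inl p, hi⟩ : CP V p).1, t) : CP V p)) ?_
          refine crs_congr _ _ _ _ fun z j hj => ?_
          simp only [rb, dif_pos hj, iz]
          unfold ex2
          rw [dif_pos ⟨hΛ p hi _ (Or.inr ⟨z, rfl⟩),
            Nat.succ_lt_succ (lt_of_lt_of_le hj (hω p hi hL))⟩]
        · simp only [ta, cor]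
          rw [dif_neg hL, if_neg hL]
      · rfl
    rw [e1, e2]
  simp only [hsame]
  refine mul_le_mul_of_nonneg_right ?_ ?_
  · have hle : ∀ i : Ix, cc V Lo i ≤ if (i ∈ E ∧ Lo i) then (2 : ℝ) ^ (ω + 1) else
        if i ∈ E then 1 else cc V Lo i := by
      intro i
      rcases i with p | a
      · by_cases hE : Sum.inl p ∈ E
        · by_cases hL : Lo (.inl p)
          · rw [if_pos ⟨hE, hL⟩]
            simp only [cc]
            rw [if_pos hL]
            have h8 : (2 : ℝ) ^ wln (hm V p) ≤ 2 ^ ω :=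
              pow_le_pow_right₀ (by norm_num) (hω p hE hL)
            have h9 : (1 : ℝ) ≤ 2 ^ ω := one_le_pow₀ (by norm_num)
            rw [pow_succ]
            linarith
          · rw [if_neg (fun h => hL h.2), if_pos hE]
            simp only [cc]
            rw [if_neg hL]
        · rw [if_neg (fun h => hE h.1), if_neg hE]
      · have h9 : (1 : ℝ) ≤ 2 ^ (ω + 1) := one_le_pow₀ (by norm_num)
        split_ifs
        · exact h9
        · exact le_rfl
        · exact le_rfl
    have hprod : ∏ i : {a // a ∈ E}, cc V Lo i.1 ≤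
        ∏ i : {a // a ∈ E}, (if Lo i.1 then (2 : ℝ) ^ (ω + 1) else 1) := by
      refine Finset.prod_le_prod (fun i _ => cc_nonneg V Lo i.1) fun i _ => ?_
      have h8 := hle i.1
      by_cases hL : Lo i.1
      · rw [if_pos ⟨i.2, hL⟩] at h8
        rw [if_pos hL]
        exact h8
      · rw [if_neg (fun h => hL h.2), if_pos i.2] at h8
        rw [if_neg hL]
        exact h8
    refine hprod.trans (le_of_eq ?_)
    rw [Finset.prod_coe_sort E (fun i => if Lo i then (2 : ℝ) ^ (ω + 1) else 1),
      Finset.prod_ite, Finset.prod_const, Finset.prod_const_one, mul_one, ← pow_mul]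
  · refine Finset.sum_nonneg fun P _ => mul_nonneg (Finset.prod_nonneg fun i _ =>
      vv_nonneg V W ρ Lo κ h5 h6 i.1 _) (mn_nonneg fun y => hF _)

end Pool.Agent.H75.OM.UPC
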