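import Pool.Agent.H78.XQ.All
import Pool.Agent.H87.QP.Plm
import Pool.Agent.H1.OMN.DNF
import Pool.Agent.H1.OMN.RI2
import Pool.Agent.H13.OMN.NWG
import Pool.Agent.H14.OMN.LFY
import Pool.Agent.H14.OMN.SMB
import Pool.Agent.H15.OMN.ALG
import Pool.Agent.H15.OMN.FNC
import Pool.Agent.H15.OMN.LFC
import Pool.Agent.H15.OMN.NOY
import Pool.Agent.H17.OMN.LOH
import Pool.Agent.H17.OMN.NU4
import Pool.Agent.H17.OMN.NU5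
import Pool.Agent.H20.OMN.CTF
import Pool.Agent.H20.OMN.DES
import Pool.Agent.H23.OM.NMA
import Pool.Agent.H23.OM.NMB
import Pool.Agent.H26.ON.FI4
import Pool.Agent.H36.OMN.ALE
import Pool.Agent.H36.OMN.THR
import Pool.Agent.H40.OM.ASY
import Pool.Agent.H41.OM.RLP
import Pool.Agent.H43.OM.CLQ
import Pool.Agent.H43.OM.CMC
import Pool.Agent.H43.OM.GEN
import Pool.Agent.H46.OM.SUB
import Pool.Agent.H46.OM.SW2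
import Pool.Agent.H5.OM.SIM
import Pool.Agent.H51.OM.PAR
import Pool.Agent.H54.OM.INL
import Pool.Agent.H59.OMN.CMG
import Pool.Agent.H59.OMN.SPC
import Pool.Agent.H59.OMN.STG
import Pool.Agent.H61.OM.NWH
import Pool.Agent.H62.OMN.EX4
import Pool.Agent.H62.OMN.FX4
import Pool.Agent.H66.OM.SEL
import Pool.Agent.H66.OM.SWP
import Pool.Agent.H67.OMN.HW2
import Pool.Agent.H68.OMQ.ENC
import Pool.Agent.H75.OM.UPB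
import Pool.Agent.H75.OM.UPC
import Pool.Agent.H79.OMN.INJ
import Pool.Agent.H80.OM.CMB
import Pool.Agent.H85.OMN.NWP
import Pool.Agent.H88.OMN.ALF
import Pool.Agent.H88.OMN.ISY
import Pool.Agent.H89.OM.CNC
import Pool.Agent.H91.OM.BL2
import Pool.Agent.H91.OM.HX2
import Pool.Agent.H91.OM.MNS
import Pool.Agent.H95.OMN.BIN
import Pool.Agent.H95.OMN.DOM
import Pool.Agent.H95.OMN.TST
import Pool.Agent.H95.OMN.UP1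
import Pool.Agent.H97.OM.COM

/-!
# Assembly of the modules
-/

set_option autoImplicit false

namespace Pool.Agent.H75.OM.All

open Pool.Agent.H70.EI Pool.Agent.H75.OM

theorem pf_ALE : T_ALE := Pool.Agent.H36.OMN.pf_ALE pf_CLB_NB

theorem pf_INL : T_INL := Pool.Agent.H54.OM.pf_INL

theorem pf_CMC : T_CMC := Pool.Agent.H43.OM.pf_CMC pf_INL

theorem pf_CMB : T_CMB := Pool.Agent.H80.OM.pf_CMB

theorem pf_ALF : T_ALF := Pool.Agent.H88.OMN.pf_ALF pf_CMC pf_CMB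

theorem pf_ALG : T_ALG := Pool.Agent.H15.OMN.pf_ALG

theorem pf_COM : T_COM := Pool.Agent.H97.OM.pf_COM

theorem pf_SW2 : T_SW2 := Pool.Agent.H46.OM.pf_SW2 Pool.Agent.H78.XQ.pf_SWL pf_CLR_NB pf_COM

theorem pf_HW2 : T_HW2 :=
  Pool.Agent.H67.OMN.pf_HW2 Pool.Agent.H78.XQ.pf_HOE Pool.Agent.H78.XQ.pf_TRE
    Pool.Agent.H78.XQ.pf_EXC pf_SW2

theorem pf_NU5 : T_NU5 := Pool.Agent.H17.OMN.pf_NU5

theorem pf_HX2 : T_HX2 := Pool.Agent.H91.OM.pf_HX2 pf_HW2 Pool.Agent.H78.XQ.pf_ITG pf_NU5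

theorem pf_RLP : T_RLP := Pool.Agent.H41.OM.pf_RLP pf_RDT_EH pf_HTR_NB pf_SW2

theorem pf_NU4 : T_NU4 := Pool.Agent.H17.OMN.pf_NU4

theorem pf_RI2 : T_RI2 :=
  Pool.Agent.H1.OMN.pf_RI2 pf_RDI_EH pf_RCP_EH pf_CHA_EH pf_PHV_EH pf_MUV_EH pf_PHB_NB pf_PHU_NB
    pf_RLP pf_CLR_NB pf_NU4 pf_NU2 Pool.Agent.H78.XQ.pf_NUX

theorem pf_BL2 : T_BL2 := Pool.Agent.H91.OM.pf_BL2 pf_HX2 pf_RI2 pf_MUV_EH

theorem pf_NS2 : T_NS2 := Pool.Agent.H91.OM.pf_NS2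

theorem pf_MNS : T_MNS := Pool.Agent.H91.OM.pf_MNS

theorem pf_CTF : T_CTF := Pool.Agent.H20.OMN.pf_CTF pf_MNS

theorem pf_CNC : T_CNC := Pool.Agent.H89.OM.pf_CNC

theorem pf_CLQ : T_CLQ := Pool.Agent.H43.OM.pf_CLQ pf_MNS pf_CNJ pf_CTF pf_CNC pf_ALE pf_ALG

theorem pf_ASY : T_ASY :=
  Pool.Agent.H40.OM.pf_ASY pf_BL2 pf_NS2 pf_MNS pf_CLQ pf_ACL pf_CNJ pf_CNT pf_HMX

theorem pf_BIN : T_BIN := Pool.Agent.H95.OMN.pf_BIN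

theorem pf_CMG : T_CMG := Pool.Agent.H59.OMN.pf_CMG pf_CMC pf_CMB

theorem pf_CPS : T_CPS := Pool.Agent.H91.OM.pf_CPS pf_MNS

theorem pf_DES : T_DES := Pool.Agent.H20.OMN.pf_DES

theorem pf_DNF : T_DNF := Pool.Agent.H1.OMN.pf_DNF

theorem pf_DOM : T_DOM := Pool.Agent.H95.OMN.pf_DOM pf_BIN Pool.Agent.H78.XQ.pf_CWS pf_MUV_EH

theorem pf_ENC : T_ENC := Pool.Agent.H68.OMQ.pf_ENC

theorem pf_FX4 : T_FX4 := Pool.Agent.H62.OMN.pf_FX4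

theorem pf_ISY : T_ISY := Pool.Agent.H88.OMN.pf_ISY Pool.Agent.H78.XQ.pf_ISX

theorem pf_LOH : T_LOH := Pool.Agent.H17.OMN.pf_LOH pf_ALG

theorem pf_NOY : T_NOY := Pool.Agent.H15.OMN.pf_NOY pf_LOH pf_NST_OQ

theorem pf_SWP : T_SWP := Pool.Agent.H66.OM.pf_SWP pf_HMX pf_COD_NB

theorem pf_INJ : T_INJ := Pool.Agent.H79.OMN.pf_INJ

theorem pf_UP1 : T_UP1 := Pool.Agent.H95.OMN.pf_UP1 pf_INJ

theorem pf_UPC : T_UPC :=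
  Pool.Agent.H75.OM.UPC.pf_UPC pf_DOM pf_UP1 pf_HMX pf_COD_NB pf_MUV_EH Pool.Agent.H78.XQ.pf_MAS
    pf_INJ

theorem pf_SPC : T_SPC := Pool.Agent.H59.OMN.pf_SPC pf_HMX pf_COD_NB pf_NST_OQ pf_CNT

theorem pf_PAR : T_PAR :=
  Pool.Agent.H51.OM.pf_PAR Pool.Agent.H78.XQ.pf_SWL Pool.Agent.H78.XQ.pf_HOE

theorem pf_NWH : T_NWH := Pool.Agent.H61.OM.pf_NWH pf_MNS pf_CPS pf_DNF pf_PAR pf_INJ

theorem pf_NWG : T_NWG := Pool.Agent.H13.OMN.pf_NWG pf_NWH pf_INJ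

theorem pf_LFC : T_LFC := Pool.Agent.H15.OMN.pf_LFC pf_MNS pf_DNF

theorem pf_THR : T_THR := Pool.Agent.H36.OMN.pf_THR pf_CMC pf_CMB

theorem pf_TST : T_TST := Pool.Agent.H95.OMN.pf_TST pf_CMC pf_CMB pf_CMG

theorem pf_SEL : T_SEL := Pool.Agent.H66.OM.pf_SEL pf_CMC pf_CMB

theorem pf_GEN : T_GEN := Pool.Agent.H43.OM.pf_GEN pf_CMC pf_CMB pf_CMG pf_ALF

theorem pf_LFY : T_LFY := Pool.Agent.H14.OMN.pf_LFY pf_CMC pf_CMB pf_GEN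

theorem pf_SIM : T_SIM := Pool.Agent.H5.OM.pf_SIM pf_CMC pf_CMB pf_THR pf_TST pf_SEL pf_LFY

theorem pf_SUB : T_SUB := Pool.Agent.H46.OM.pf_SUB pf_INL

theorem pf_SMB : T_SMB := Pool.Agent.H14.OMN.pf_SMB pf_ALG pf_SUB

theorem pf_FNC : T_FNC := Pool.Agent.H15.OMN.pf_FNC pf_ALF pf_ALG

theorem pf_NWP : T_NWP :=
  Pool.Agent.H85.OMN.pf_NWP pf_MNS pf_DES pf_NWG pf_ENC pf_CLQ pf_LFC pf_SIM pf_SMB pf_FNC

theorem pf_UPB : T_UPB :=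
  Pool.Agent.H75.OM.UPB.pf_UPB pf_SWP pf_UPC pf_SPC pf_NWP pf_LOH pf_INJ pf_CNT pf_HMX

theorem pf_EX4 : T_EX4 :=
  Pool.Agent.H62.OMN.pf_EX4 pf_FX4 pf_ASY Pool.Agent.H78.XQ.pf_BSX Pool.Agent.H78.XQ.pf_NOX pf_ISY
    Pool.Agent.H78.XQ.pf_SUM Pool.Agent.H78.XQ.pf_MAS pf_CNT pf_NOY pf_UPB pf_COD_NB

theorem pf_STG : Pool.Agent.H75.OM.T_STG := Pool.Agent.H59.OMN.pf_STG pf_TBN pf_FNC

theorem pf_NMA : T_NMA := Pool.Agent.H23.OM.pf_NMA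

theorem pf_NMB : T_NMB := Pool.Agent.H23.OM.pf_NMB

theorem pf_FI4 : T_FI4 :=
  Pool.Agent.H26.ON.FI4.pf_FI4 pf_EX4 pf_STG Pool.Agent.H78.XQ.pf_DC3 pf_CMP_EH
    Pool.Agent.H78.XQ.pf_EXA pf_LOH pf_NMA pf_NMB

end Pool.Agent.H75.OM.All
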