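import Pool.Agent.H75.OM.Stmt
import Pool.Agent.H78.XQ.Targets

/-!
# Omnipotent for quantum computers, useless for circuits: definitions for the proof
-/

set_option autoImplicit false

namespace Pool.Agent.H75.OM

open Finset Pool.Agent.H6.NB Pool.Agent.H70.OQ Pool.Agent.H70.EH Pool.Agent.H70.EI Pool.Agent.H78.XQ
open Pool.Agent.H68.AC (PA Wt fd Ext ind)

/-! ### Restrictions -/

/-- The rate of a random restriction for formulas of depth `d + 1`. -/
noncomputable def rt (w d : ℕ) : ℝ := (1 / (128 * (w : ℝ))) ^ (d + 1)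

/-- The failure probability of a random restriction. -/
noncomputable def er (S d w : ℕ) : ℝ := ((S : ℝ) + 1) ^ (d + 1) / 2 ^ w

/-- The inverse rate for a pair of formulas. -/
noncomputable def ir (w₁ d₁ w₂ d₂ : ℕ) : ℝ :=
  (128 * (w₁ : ℝ)) ^ (d₁ + 1) * (128 * (w₂ : ℝ)) ^ (d₂ + 1)

/-- The assumptions on the second formula (size `S₂`, depth `d₂ + 1`) for blocks of scale `r`. -/
structure Sz2 (r S₂ d₂ w₂ : ℕ) : Prop where
  one : 1 ≤ w₂
  two : 2 ≤ S₂
  rate : (128 * w₂) ^ (d₂ + 1) ≤ 2 ^ r ^ 3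
  err : (S₂ + 1) ^ (d₂ + 1) * 2 ^ (2 * 2 ^ r + 500 * (r + 1) ^ 3) ≤ 2 ^ w₂

/-! ### The generator -/

/-- The parity of a family of bits. -/
def par {ι : Type} [Fintype ι] (f : ι → Bool) : Bool :=
  decide (Odd (univ.filter fun i => f i = true).card)

/-- The linear map number `a`. -/
def lin {l N : ℕ} (M : (Fin l → Bool) → Fin N → Fin l → Bool) (a : Fin l → Bool)
    (v : Fin N → Bool) : Fin l → Bool := fun j => par fun i : Fin N => v i && M a i j

/-- Different vectors have few common images. -/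
def Des {l N : ℕ} (M : (Fin l → Bool) → Fin N → Fin l → Bool) : Prop :=
  ∀ v v' : Fin N → Bool, v ≠ v' → (univ.filter fun a => lin M a v = lin M a v').card ≤ N

/-- The bit number `v` of the output of the generator with the seed `z`. -/
def gen {l N : ℕ} (M : (Fin l → Bool) → Fin N → Fin l → Bool)
    (z : (Fin l → Bool) × (Fin l → Bool) → Bool) (v : Fin N → Bool) : Bool :=
  par fun a : Fin l → Bool => z (a, lin M a v)

/-- An injective code of the pairs `(w, i)`, `|w| ≤ s`, `i ≤ ω`. -/
def enc (s ω : ℕ) (w : List Bool) (i : ℕ) : Fin (s + ω + 2) → Bool := fun j =>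
  if (j : ℕ) < w.length then w.getD j false else decide ((j : ℕ) = w.length ∨ (j : ℕ) = s + 1 + i)

/-! ### Circuits without oracle gates -/

/-- The function `f` on `n` bits has a circuit of size at most `s` without oracle gates. -/
def Cm (n s : ℕ) (f : List Bool → Bool) : Prop :=
  ∃ C : Circ, NoAsk C ∧ C ≠ [] ∧ csize C ≤ s ∧
    ∀ x : List Bool, x.length = n → cout (fun _ => false) C x = f x

/-- The number with the binary digits `b i`, `i < r`, is smaller than `W`. -/
def thr (r W : ℕ) (b : ℕ → Bool) : Bool :=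
  decide (∑ i ∈ Finset.range r, (if b i then 2 ^ i else 0) < W)

/-- A finite description of a part of an oracle: a dictionary `D`, and a list `Q` of triples
`(c, r, W)`: the strings `wps c z`, `|z| = r`, belong to the oracle with probability
`W / 2 ^ r`. -/
structure Spc where
  D : List (List Bool × Bool)
  Q : List (List Bool × ℕ × ℕ)

/-- The string `w` is the position of a bit of the correction string of length `2 ^ r` of `c`. -/
def IsW (c : List Bool) (r : ℕ) (w : List Bool) : Prop :=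
  ∃ z : List Bool, z.length = r ∧ w = wps c z

open Classical in
/-- The oracle with the description `p` and the random bits `y`. -/
noncomputable def OSp (p : Spc) (y : List Bool → ℕ → Bool) (w : List Bool) : Bool :=
  match p.D.find? (fun c => decide (c.1 = w)) with
  | some c => c.2
  | none =>
    match p.Q.find? (fun c => decide (IsW c.1 c.2.1 w)) with
    | some c => thr c.2.1 c.2.2 fun i => y w (i + 1)
    | none => y w 0

/-! ### Numbers -/

/-- The logarithm of the logarithm of the number of circuits. -/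
def mm (k s : ℕ) : ℕ := Nat.log 2 ((k + 4) * (s + 2) ^ 4) + 1

/-- Bound for the length of small instances. -/
def lam (k s : ℕ) : ℕ := 128 * (k + 13) * (mm k s + k + 24)

/-- Bound for the length of the labels of the correction strings. -/
def omg (l : ℕ) : ℕ := 512 * (10 * l + 103) ^ 2 * l * (32 * l + 300)

/-- Bound for the length of the dictionary. -/
def dic (k s : ℕ) : ℕ := 2 ^ (14 * lam k s + 110) + (s + 1) ^ 2

/-- Bound for the size of the circuits for an oracle with a description. -/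
def siz (s ω l D₀ : ℕ) : ℕ := 2 ^ (3 * l + 16) * (s + ω + 2) * (ω + 2) * (D₀ + 1)

/-- The numerical conditions. -/
def NumOK (k s e : ℕ) : Prop := omg (lam k s) ≤ s ∧ s + omg (lam k s) + 2 ≤ 2 ^ mm k s ∧
  (∀ σ : ℕ, σ ^ 3 ≤ 4 * (k + 13) * (mm k s + k + 24) →
    2 ^ σ * (omg (lam k s) + 1) ≤ s ∧ 2 * 2 ^ σ + 3 * σ + 5 ≤ s) ∧
  ∃ l w : ℕ, 1 ≤ l ∧ 1 ≤ w ∧ 4 * w * (128 * w) ^ (k + 15) ≤ 2 ^ l ∧
    (2 : ℝ) ^ (s + omg (lam k s) + 2) * (2 * (er (2 ^ 2 ^ mm k s) (k + 14) w +
      4 * Real.exp (-(2 ^ l * rt w (k + 14) ^ 2 / 16)))) ≤ 1 / 2 ^ (3 * s) ∧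
    s * (siz s (omg (lam k s)) l (dic k s) + 1) ≤ s ^ e

/-! ### Stages -/

/-- A requirement: `L` has no `Σ_k` circuits of size `s` with oracle gates on the inputs of length
`n`. `σ` is the size parameter; there is no requirement if `act` is false. -/
structure Rq where
  k : ℕ
  n : ℕ
  s : ℕ
  σ : ℕ
  L : Set (List Bool)
  act : Prop

/-- The oracle satisfies the requirement. -/
def Rq.ok (r : Rq) (O : List Bool → Bool) : Prop := r.act → ¬ Has r.k r.n r.s O r.L

/-- The sizes of the tables and of the requirements. -/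
structure Sep (e s₀ : ℕ → ℕ) (W : ℕ → Hm) (ρ : ℕ → ℕ) (R : ℕ → Rq) : Prop where
  rho : Rho W ρ
  lo : ∀ a, ρ a < (R a).σ
  hi : ∀ a, (R a).σ < ρ (a + 1) ∧ (R a).s < 2 ^ ρ (a + 1)
  tiny : ∀ a, 2 ^ (2 ^ ((W a).1 + 3) * 2 ^ ρ a + 2) ≤ (R a).n
  ns : ∀ a, (R a).n ≤ (R a).s
  big : ∀ a, s₀ (R a).k ≤ (R a).s
  s1 : ∀ a, 20 * ((R a).k + 13) ≤ (R a).σ
  s2 : ∀ a, ((R a).k + 13) * (mm (R a).k (R a).s + (R a).k + 24) ≤ (R a).σ ^ 3
  s3 : ∀ a, (R a).σ ^ 3 ≤ 4 * ((R a).k + 13) * (mm (R a).k (R a).s + (R a).k + 24)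
  prev : ∀ a b, b < a → mm (R b).k (R b).s ≤ (R a).σ ^ 2 ∧ (R b).k + 12 ≤ (R a).σ
  hard : ∀ a, (R a).act → ¬ HasP (R a).k (R a).n ((R a).s ^ e (R a).k) (R a).L

/-- The numerical conditions hold for all large sizes. -/
def Num (e s₀ : ℕ → ℕ) : Prop := ∀ k s, s₀ k ≤ s → NumOK k s (e k)

section

variable (V : ℕ → ATM) (W : ℕ → Hm) (ρ : ℕ → ℕ)

/-- The string `w` is a position of the block of the instance `p`. -/
def BPos (p : ℕ × List Bool) (w : List Bool) : Prop :=
  (∃ (u : Fin (2 * (hm V p).length) → Bool) (v : Fin (qs (hm V p)) → Bool) (b : Bool),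
    w = pos (hm V p) (List.ofFn u) (List.ofFn v) b) ∨
  ∃ z : Fin (wln (hm V p)) → Bool, w = wps (hm V p) (List.ofFn z)

/-- `O P g` is the oracle built from the coordinates `P i`, `i ∈ E`, and from the default `g`. -/
structure IsY (E : Finset Ix)
    (O : (∀ i : {a // a ∈ E}, Cx V W ρ i.1) → (List Bool → Bool) → List Bool → Bool) : Prop where
  isx : ∀ g, IsX V W ρ E fun P => O P g
  out : ∀ w, (∀ p, Sum.inl p ∈ E → ¬ BPos V p w) →
    (∀ a, Sum.inr a ∈ E → ∀ x : Nn (2 ^ ρ a) ((W a).1 + 1),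
      w ≠ false :: nstr (2 ^ ρ a) ((W a).1 + 1) x) → ∀ P g, O P g w = g w

/-- The strings of length at most `m`. -/
abbrev St (m : ℕ) : Type := {w : List Bool // w.length ≤ m}

instance (m : ℕ) : Finite (St m) := (List.finite_length_le Bool m).to_subtype

noncomputable instance (m : ℕ) : Fintype (St m) := Fintype.ofFinite _

/-- A function on the strings of length at most `m`, extended by false. -/
def ex (m : ℕ) (g : St m → Bool) : List Bool → Bool := fun w =>
  if h : w.length ≤ m then g ⟨w, h⟩ else false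

/-- A function on pairs, extended by false. -/
def ex2 (m ω : ℕ) (y : St m × Fin (ω + 1) → Bool) : List Bool → ℕ → Bool := fun w i =>
  if h : w.length ≤ m ∧ i < ω + 1 then y (⟨w, h.1⟩, ⟨i, h.2⟩) else false

open Classical in
/-- The oracle in which the blocks outside `Lo` are replaced by the default. -/
noncomputable def OC (E : Finset Ix) (Lo : Ix → Prop)
    (O : (∀ i : {a // a ∈ E}, Cx V W ρ i.1) → (List Bool → Bool) → List Bool → Bool)
    (P : ∀ i : {a // a ∈ E}, Cx V W ρ i.1) (g : List Bool → Bool) : List Bool → Bool := fun w =>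
  if ∃ p, Sum.inl p ∈ E ∧ ¬ Lo (.inl p) ∧ BPos V p w then g w else O P g w

open Classical in
/-- The weight of the correction string which fits to the copies `c` and the answer `b`. -/
noncomputable def wt0 (q R n : ℕ) (b : Bool) {U : Type} [Fintype U] (c : U → VV q → Bool) : ℕ :=
  if h : ∃ w : ℕ, w ≤ 2 ^ n ∧ (w : ℝ) / 2 ^ n = (if b then 1 / 2 else 3 / 2) - kap q R c then
    h.choose else 0

/-- The correction string of weight about `w` made of random bits. -/
def crs (n w : ℕ) (y : (Fin n → Bool) → ℕ → Bool) : (Fin n → Bool) → Bool :=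
  fun z => thr n w fun i => y z i

open Classical in
/-- The coordinates in which the correction strings of the instances in `Lo` are replaced by the
strings made of the random bits `y`. -/
noncomputable def cor (E : Finset Ix) (Lo : Ix → Prop) (κ : Ix → Bool)
    (P : ∀ i : {a // a ∈ E}, Cx V W ρ i.1) (y : List Bool → ℕ → Bool) :
    ∀ i : {a // a ∈ E}, Cx V W ρ i.1
  | ⟨.inl p, h⟩ => if Lo (.inl p) then
      (((P ⟨.inl p, h⟩ : CP V p).1, crs (wln (hm V p))
        (wt0 (qs (hm V p)) (rns (hm V p)) (wln (hm V p)) (κ (.inl p)) (P ⟨.inl p, h⟩ : CP V p).1)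
        fun z i => y (wps (hm V p) (List.ofFn z)) (i + 1)) : CP V p) else P ⟨.inl p, h⟩
  | ⟨.inr a, h⟩ => P ⟨.inr a, h⟩

end

end Pool.Agent.H75.OM
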