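import Pool.Agent.H78.XQ.Stmt

/-!
# An oracle which is almighty for quantum computers and useless for classical circuits: definitions

Circuits with oracle gates and circuits with alternating quantifiers. The alternating oracle
machines `ATM`, the strings `home`, the languages `plang`, the alternating quantifiers `Alt` and the
exact quantum algorithm `exact` are those of `Pool.Agent.H78.XQ.Stmt` and the files it imports.
-/

set_option autoImplicit false

namespace Pool.Agent.H75.OM

open Pool.Agent.H6.NB Pool.Agent.H70.OQ Pool.Agent.H70.EH Pool.Agent.H70.EI Pool.Agent.H78.XQ

/-- A gate reads wires, which are numbered `0, 1, …`. `nand i j`: the negation of the conjunction of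
the wires `i` and `j`; `ask l`: does the oracle contain the string which consists of the values of
the wires in the list `l`. -/
inductive Gate : Type
  | nand (i j : ℕ) : Gate
  | ask (l : List ℕ) : Gate

/-- The value of a gate if the wires have the values `v` (wires which do not exist have the value
false). -/
def Gate.val (O : List Bool → Bool) (v : List Bool) : Gate → Bool
  | .nand i j => !(v.getD i false && v.getD j false)
  | .ask l => O (l.map fun i => v.getD i false)

/-- The size of a gate: `1`, or the number of the wires which are sent to the oracle plus `1`. -/
def Gate.size : Gate → ℕ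
  | .nand _ _ => 1
  | .ask l => l.length + 1

/-- A circuit is a list of gates. -/
abbrev Circ : Type := List Gate

/-- The values of all wires: first the inputs `v`, then the gates, one after the other. -/
def crun (O : List Bool → Bool) (C : Circ) (v : List Bool) : List Bool :=
  C.foldl (fun v g => v ++ [g.val O v]) v

/-- The output of the circuit `C` on the input `v`: the value of the last gate (false if there is no
gate). -/
def cout (O : List Bool → Bool) (C : Circ) (v : List Bool) : Bool :=
  ((crun O C v).drop v.length).getLastD false

/-- The size of a circuit: the sum of the sizes of its gates. -/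
def csize (C : Circ) : ℕ := (C.map Gate.size).sum

/-- The circuit has no oracle gates. -/
def NoAsk (C : Circ) : Prop := ∀ g ∈ C, ∃ i j, g = Gate.nand i j

/-- `∃ v₁ ∀ v₂ ∃ v₃ …` (`k` alternating quantifiers over the strings of length `t`) the circuit `C`
outputs true on the input `x v₁ v₂ ⋯ v_k`. For `k = 0`: it outputs true on the input `x`. -/
def Acc (k t : ℕ) (O : List Bool → Bool) (C : Circ) (x : List Bool) : Prop :=
  Alt (fun w => w.length = t) true k fun ws => cout O C (x ++ ws.flatten) = true

/-- The language `L` is decided on the inputs of length `n` by a `Σ_k` circuit of size at most `s`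
with oracle gates for `O` (and with at most `s` bits for each of the `k` quantifiers). -/
def Has (k n s : ℕ) (O : List Bool → Bool) (L : Set (List Bool)) : Prop :=
  ∃ (C : Circ) (t : ℕ), csize C ≤ s ∧ t ≤ s ∧
    ∀ x : List Bool, x.length = n → (x ∈ L ↔ Acc k t O C x)

/-- The language `L` is decided on the inputs of length `n` by a `Σ_k` circuit of size at most `s`
without oracle gates (and with at most `s` bits for each of the `k` quantifiers). -/
def HasP (k n s : ℕ) (L : Set (List Bool)) : Prop :=
  ∃ (C : Circ) (t : ℕ), NoAsk C ∧ csize C ≤ s ∧ t ≤ s ∧
    ∀ x : List Bool, x.length = n → (x ∈ L ↔ Acc k t (fun _ => false) C x)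

end Pool.Agent.H75.OM
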