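import Pool.Agent.H75.OM.TA

/-!
# Omnipotent for quantum computers, useless for circuits: module targets, part C (circuits)
-/

set_option autoImplicit false

namespace Pool.Agent.H75.OM

open Finset Pool.Agent.H6.NB Pool.Agent.H70.OQ Pool.Agent.H70.EH Pool.Agent.H70.EI Pool.Agent.H78.XQ

/-! ## Circuits as formulas of the oracle -/

/-- CTF: the output of a circuit is a formula of the values of the oracle. -/
def T_CTF : Prop := ∀ (X : Type) (S e s : ℕ) (O : (X → Bool) → List Bool → Bool) (C : Circ)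
  (x : List Bool), 2 ≤ S → 2 ^ s ≤ S → csize C ≤ s →
  (∀ w, w.length ≤ s → Cl X S e fun y => O y w) → Cl X S (e + 2) fun y => cout (O y) C x

/-- CNC: the number of circuits. -/
def T_CNC : Prop := ∀ s N : ℕ, ∃ A : Finset Circ, A.card ≤ (N + 4) ^ (3 * s) ∧
  (∀ C ∈ A, csize C ≤ s) ∧ ∀ C : Circ, csize C ≤ s → ∃ C' ∈ A,
    ∀ (O : List Bool → Bool) (x : List Bool), x.length + s ≤ N → cout O C' x = cout O C x

open Classical in
/-- ALE: alternating quantifiers over the strings of length `t`. -/
def T_ALE : Prop := ∀ (X : Type) (S t d k : ℕ) (g : List (List Bool) → (X → Bool) → Bool),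
  2 ≤ S → 2 ^ t ≤ S →
  (∀ ws, ws.length = k → (∀ w ∈ ws, w.length = t) → Cl X S d (g ws)) →
  Cl X S (d + k + 1) fun y => decide (Alt (fun w => w.length = t) true k fun ws => g ws y = true)

/-- ALG: alternating quantifiers over the strings of length `t`: change of the predicate. -/
def T_ALG : Prop := ∀ (t k : ℕ) (b : Bool) (P Q : List (List Bool) → Prop),
  (∀ ws, ws.length = k → (∀ w ∈ ws, w.length = t) → (P ws ↔ Q ws)) →
  (Alt (fun w => w.length = t) b k P ↔ Alt (fun w => w.length = t) b k Q)

open Classical in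
/-- CLQ: the statement that a language has small circuits is a formula. -/
def T_CLQ : Prop := ∀ (X : Type) (S e k n s : ℕ) (O : (X → Bool) → List Bool → Bool)
  (L : Set (List Bool)), 2 ^ ((k + 4) * (s + 2) ^ 4) ≤ S → n ≤ s →
  (∀ w, w.length ≤ s → Cl X S e fun y => O y w) →
  Cl X S (e + k + 10) fun y => decide (Has k n s (O y) L)

/-- LOH: small circuits see only the short strings of the oracle. -/
def T_LOH : Prop := ∀ (k n s : ℕ) (O O' : List Bool → Bool) (L : Set (List Bool)),
  (∀ w, w.length ≤ s → O w = O' w) → (Has k n s O L ↔ Has k n s O' L)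

/-! ## Circuits built from circuits -/

/-- The new number of the wire `i` of a circuit with `n` inputs which is appended to `m` wires: the
input `i` is the wire `ι i`. -/
def wr (n m : ℕ) (ι : ℕ → ℕ) (i : ℕ) : ℕ := if i < n then ι i else m + (i - n)

/-- Rename the wires of a gate. -/
def Gate.ren (n m : ℕ) (ι : ℕ → ℕ) : Gate → Gate
  | .nand i j => .nand (wr n m ι i) (wr n m ι j)
  | .ask l => .ask (l.map (wr n m ι))

/-- INL: a circuit appended to other wires. -/
def T_INL : Prop := ∀ (O : List Bool → Bool) (C : Circ) (x u : List Bool) (ι : ℕ → ℕ),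
  (∀ i < x.length, (ι i < u.length ∨ u.length + C.length ≤ ι i) ∧
    u.getD (ι i) false = x.getD i false) →
  crun O (C.map (Gate.ren x.length u.length ι)) u = u ++ (crun O C x).drop x.length

/-- CMC: composition. -/
def T_CMC : Prop := ∀ (n m s : ℕ) (t : ℕ → ℕ) (f : List Bool → Bool) (g : ℕ → List Bool → Bool),
  Cm m s f → (∀ j < m, Cm n (t j) (g j)) →
  Cm n (s + ∑ j ∈ Finset.range m, t j) fun x => f ((List.range m).map fun j => g j x)

/-- CMB: projections, constants and small gates. -/
def T_CMB : Prop := (∀ n i : ℕ, Cm n 2 fun x => x.getD i false) ∧ (∀ n b, Cm n 2 fun _ => b) ∧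
  Cm 1 1 (fun x => !x.getD 0 false) ∧ Cm 2 5 (fun x => x.getD 0 false && x.getD 1 false) ∧
  Cm 2 5 (fun x => x.getD 0 false || x.getD 1 false) ∧
  Cm 2 5 (fun x => xor (x.getD 0 false) (x.getD 1 false)) ∧
  Cm 3 8 fun x => if x.getD 0 false then x.getD 1 false else x.getD 2 false

/-- CMG: large gates. -/
def T_CMG : Prop := ∀ m : ℕ, Cm m (10 * m + 2) (fun x => x.all id) ∧
  Cm m (10 * m + 2) (fun x => x.any id) ∧
  Cm m (10 * m + 2) fun x => decide (Odd (x.count true))

/-- ALF: every function has circuits. -/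
def T_ALF : Prop := ∀ (l : ℕ) (f : List Bool → Bool), Cm l (2 ^ (l + 5)) f

/-- GEN: circuits for the generator. -/
def T_GEN : Prop := ∀ (l N : ℕ) (M : (Fin l → Bool) → Fin N → Fin l → Bool)
  (z : (Fin l → Bool) × (Fin l → Bool) → Bool),
  Cm N (2 ^ (2 * l + 8) * (N + 1)) fun v => gen M z fun j : Fin N => v.getD j false

/-- THR: circuits for thresholds. -/
def T_THR : Prop := ∀ r W : ℕ, Cm r (20 * r + 4) fun b => thr r W fun i => b.getD i false

open Classical in
/-- TST: circuits for the comparison of strings. -/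
def T_TST : Prop := ∀ (m r : ℕ) (c : List Bool), Cm m (20 * m + 20) (fun w => decide (c = w)) ∧
  Cm m (20 * m + 20) fun w => decide (IsW c r w)

/-- SEL: circuits for the first item of a list which passes its test. -/
def T_SEL : Prop := ∀ (m s s' : ℕ) (l : List ((List Bool → Bool) × (List Bool → Bool)))
  (f : List Bool → Bool), (∀ c ∈ l, Cm m s c.1 ∧ Cm m s c.2) → Cm m s' f →
  Cm m ((2 * s + 8) * l.length + s') fun w => match l.find? (fun c => c.1 w) with
    | some c => c.2 w
    | none => f w

/-- LFY: circuits for the random bits. -/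
def T_LFY : Prop := ∀ (s ω l : ℕ) (M : (Fin l → Bool) → Fin (s + ω + 2) → Fin l → Bool)
  (z : (Fin l → Bool) × (Fin l → Bool) → Bool) (m i : ℕ), m ≤ s →
  Cm m (2 ^ (2 * l + 10) * (s + ω + 2)) fun w =>
    ex2 s ω (fun x => gen M z (enc s ω x.1.1 x.2)) w i

/-- The description is small. -/
structure Spc.Small (p : Spc) (ω D₀ : ℕ) : Prop where
  dic : p.D.length ≤ D₀
  num : p.Q.length ≤ D₀
  len : ∀ c ∈ p.Q, c.2.1 ≤ ω

/-- SIM: circuits for the oracle with a description whose random bits are those of the generator. -/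
def T_SIM : Prop := ∀ (s ω l D₀ : ℕ) (M : (Fin l → Bool) → Fin (s + ω + 2) → Fin l → Bool)
  (z : (Fin l → Bool) × (Fin l → Bool) → Bool) (p : Spc) (m : ℕ), p.Small ω D₀ → m ≤ s →
  Cm m (siz s ω l D₀) (OSp p (ex2 s ω fun x => gen M z (enc s ω x.1.1 x.2)))

/-- SUB: the oracle gates are replaced by circuits. -/
def T_SUB : Prop := ∀ (O : List Bool → Bool) (P s n : ℕ) (C : Circ), csize C ≤ s →
  (∀ m ≤ s, Cm m P O) → ∃ C' : Circ, NoAsk C' ∧ csize C' ≤ s * (P + 1) ∧
    ∀ x : List Bool, x.length = n → cout (fun _ => false) C' x = cout O C x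

/-- SMB: an oracle which has small circuits does not help. -/
def T_SMB : Prop := ∀ (O : List Bool → Bool) (P s k n : ℕ) (L : Set (List Bool)), Has k n s O L →
  (∀ m ≤ s, Cm m P O) → HasP k n (s * (P + 1)) L

/-- FNC: every language has circuits, for every length. -/
def T_FNC : Prop := (∀ (k n : ℕ) (L : Set (List Bool)), ∃ c, HasP k n c L) ∧
  ∀ (k n s s' : ℕ) (L : Set (List Bool)), s ≤ s' → HasP k n s L → HasP k n s' L

end Pool.Agent.H75.OM
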