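import Pool.Agent.H75.OM.TD
import Pool.Agent.H78.XQ.FX3

/-!
# UPB: the probability that a requirement is not satisfied
-/

set_option autoImplicit false

namespace Pool.Agent.H75.OM.UPB

open Finset Pool.Agent.H6.NB Pool.Agent.H70.OQ Pool.Agent.H70.EH Pool.Agent.H70.EI Pool.Agent.H78.XQ
open Pool.Agent.H75.OM

theorem bi_nonneg (b : Bool) : 0 ≤ bi b := by cases b <;> simp [bi]

theorem wln_eq (s : List Bool) : wln s = omg s.length := by
  unfold wln rns omg
  have h : qs s = 10 * s.length + 100 := rfl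
  rw [h]
  ring

theorem omg_mono {l l' : ℕ} (h : l ≤ l') : omg l ≤ omg l' := by
  unfold omg
  gcongr

theorem OSp_congr (p : Spc) (y y' : List Bool → ℕ → Bool) (w : List Bool)
    (h : ∀ i, y w i = y' w i) : OSp p y w = OSp p y' w := by
  have h1 : y w = y' w := funext h
  unfold OSp
  rw [h1]

/-- forget the long strings -/
def rs {s Λ : ℕ} (ω : ℕ) (hs : s ≤ Λ) (x : St s × Fin (ω + 1)) : St Λ × Fin (ω + 1) :=
  (⟨x.1.1, x.1.2.trans hs⟩, x.2)

theorem rs_inj {s Λ : ℕ} (ω : ℕ) (hs : s ≤ Λ) : Function.Injective (rs (s := s) ω hs) := by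
  rintro ⟨⟨w, hw⟩, i⟩ ⟨⟨w', hw'⟩, i'⟩ h
  have e1 := congrArg (fun x : St Λ × Fin (ω + 1) => x.1.1) h
  have e2 := congrArg (fun x : St Λ × Fin (ω + 1) => x.2) h
  simp only [rs] at e1 e2
  subst e1 e2
  rfl

theorem ex2_rs {s Λ ω : ℕ} (hs : s ≤ Λ) (y : St Λ × Fin (ω + 1) → Bool) (w : List Bool)
    (hw : w.length ≤ s) (i : ℕ) : ex2 Λ ω y w i = ex2 s ω (fun x => y (rs ω hs x)) w i := by
  unfold ex2
  by_cases hi : i < ω + 1
  · rw [dif_pos ⟨hw.trans hs, hi⟩, dif_pos ⟨hw, hi⟩]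
    rfl
  · rw [dif_neg (fun h => hi h.2), dif_neg (fun h => hi h.2)]

theorem pf_UPB (h1 : T_SWP) (h2 : T_UPC) (h3 : T_SPC) (h4 : T_NWP) (h5 : T_LOH) (h6 : T_INJ)
    (h7 : T_CNT) (h8 : T_HMX) : T_UPB := by
  classical
  intro e s₀ hN V W ρ R hS E O hO a Λ Lo κ hs hΛ hLo
  have hρ := hS.rho
  by_cases hact : (R a).act
  swap
  · have h0 : ∀ O' : List Bool → Bool, bi (decide (¬ (R a).ok O')) = 0 := by
      intro O'
      have : ¬ ¬ (R a).ok O' := fun h => h fun hh => absurd hh hact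
      rw [decide_eq_false this]
      rfl
    refine le_trans (le_of_eq ?_) (by positivity)
    refine Finset.sum_eq_zero fun P _ => ?_
    have h9 : (mn fun g : St Λ → Bool => bi (decide (¬ (R a).ok (O P (ex Λ g))))) = 0 := by
      unfold mn
      rw [Finset.sum_eq_zero fun g _ => h0 _, zero_div]
    rw [h9, mul_zero]
  obtain ⟨F, hF⟩ : ∃ F : (List Bool → Bool) → ℝ,
    F = fun O' => bi (decide (Has (R a).k (R a).n (R a).s O' (R a).L)) := ⟨_, rfl⟩
  have hFok : ∀ O' : List Bool → Bool, bi (decide (¬ (R a).ok O')) = F O' := by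
    intro O'
    rw [hF]
    have : (¬ (R a).ok O') ↔ Has (R a).k (R a).n (R a).s O' (R a).L := by
      unfold Rq.ok
      constructor
      · intro h
        by_contra hh
        exact h fun _ => hh
      · intro h hh
        exact hh hact h
    rw [decide_eq_decide.2 this]
  have hFloc : ∀ g g' : List Bool → Bool, (∀ w, w.length ≤ (R a).s → g w = g' w) →
      F g = F g' := by
    intro g g' hg
    rw [hF]
    have := h5 (R a).k (R a).n (R a).s g g' (R a).L hg
    simp only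
    rw [decide_eq_decide.2 this]
  have hF0 : ∀ g, 0 ≤ F g := fun g => by rw [hF]; exact bi_nonneg _
  have hnum := hN (R a).k (R a).s (hS.big a)
  have hs1 := hS.s1 a
  have hs3 := hS.s3 a
  have hσ3 := hnum.2.2.1 (R a).σ hs3
  -- the lengths
  have hω : ∀ p, Sum.inl p ∈ E → Lo (.inl p) →
      wln (hm V p) ≤ omg (lam (R a).k (R a).s) := by
    intro p hp hL
    rw [wln_eq]
    refine omg_mono ?_
    have e1 := (h8.2.2 V ρ p).2.2
    have e2 : key V ρ (.inl p) ≤ (R a).σ := hLo _ hp hL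
    have e3 : (key V ρ (.inl p) + 1) ^ 3 ≤ ((R a).σ + 1) ^ 3 :=
      Nat.pow_le_pow_left (by omega) 3
    have e4 : ((R a).σ + 1) ^ 3 ≤ 2 * (R a).σ ^ 3 := by
      have h260 : 260 ≤ (R a).σ := by omega
      generalize (R a).σ = x at h260
      nlinarith [Nat.mul_le_mul h260 (Nat.mul_le_mul h260 h260), Nat.mul_le_mul_left x h260,
        Nat.mul_le_mul_left (x * x) h260]
    have e5 : 32 * (R a).σ ^ 3 ≤ lam (R a).k (R a).s := by
      unfold lam
      calc 32 * (R a).σ ^ 3 ≤ 32 * (4 * ((R a).k + 13) * (mm (R a).k (R a).s + (R a).k + 24)) :=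
            Nat.mul_le_mul_left _ hs3
        _ = _ := by ring
    have e6 : (hm V p).length ≤ 16 * (key V ρ (.inl p) + 1) ^ 3 := e1
    omega
  have hcard : (E.filter fun i => Lo i).card ≤ 2 ^ (R a).σ := by
    have e1 : (E.filter fun i => Lo i).card ≤ (E.filter fun i => key V ρ i ≤ (R a).σ).card := by
      refine Finset.card_le_card fun i hi => ?_
      rw [Finset.mem_filter] at hi ⊢
      exact ⟨hi.1, hLo i hi.1 hi.2⟩
    have e2 := h7 V W ρ hρ E (R a).σ (by omega)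
    omega
  -- the blocks outside `Lo`
  have hstep1 := h1 V W ρ hρ E O hO Λ Lo
    (fun i c => if Lo i.1 then wgX V W ρ (κ i.1) i.1 c else wg0 V W ρ i.1 c) F hΛ
    (fun p hp hL c => by
      dsimp only
      rw [if_neg hL])
    (fun g g' hg => hFloc g g' fun w hw => hg w (hw.trans hs))
  obtain ⟨v, hv0, hv1, hstep2⟩ := h2 V W ρ hρ E O hO Λ (omg (lam (R a).k (R a).s)) Lo κ F hΛ hω hF0
  simp only [hFok]
  rw [hstep1]
  refine hstep2.trans ?_
  -- for fixed contents
  have hstep3 : ∀ P : (∀ i : {a // a ∈ E}, Cx V W ρ i.1),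
      (mn fun y : St Λ × Fin (omg (lam (R a).k (R a).s) + 1) → Bool =>
        F (OC V W ρ E Lo O (cor V W ρ E Lo κ P (ex2 Λ (omg (lam (R a).k (R a).s)) y))
          fun w => ex2 Λ (omg (lam (R a).k (R a).s)) y w 0)) ≤ 1 / 2 ^ (3 * (R a).s) := by
    intro P
    obtain ⟨p, hp, hpw⟩ := h3 e s₀ hN V W ρ R hS E O hO a Lo κ P hLo
    have e1 : ∀ y : St Λ × Fin (omg (lam (R a).k (R a).s) + 1) → Bool,
        F (OC V W ρ E Lo O (cor V W ρ E Lo κ P (ex2 Λ (omg (lam (R a).k (R a).s)) y))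
          fun w => ex2 Λ (omg (lam (R a).k (R a).s)) y w 0) =
        F (OSp p (ex2 (R a).s (omg (lam (R a).k (R a).s))
          fun x => y (rs (omg (lam (R a).k (R a).s)) hs x))) := by
      intro y
      refine hFloc _ _ fun w hw => ?_
      rw [hpw (ex2 Λ (omg (lam (R a).k (R a).s)) y) w hw]
      exact OSp_congr p _ _ w fun i => ex2_rs hs y w hw i
    simp only [e1]
    have e2 := h6 _ _ (rs (omg (lam (R a).k (R a).s)) hs)
      (fun y => F (OSp p (ex2 (R a).s (omg (lam (R a).k (R a).s)) y))) (rs_inj _ hs)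
    have e3 := h4 (R a).k (R a).n (R a).s (e (R a).k) (R a).L p hnum (hS.ns a)
      (hS.hard a hact) hp
    rw [hF] at e2 ⊢
    exact e2.le.trans e3
  have hstep4 : ∑ P : (∀ i : {a // a ∈ E}, Cx V W ρ i.1), (∏ i, v i (P i)) *
      (mn fun y : St Λ × Fin (omg (lam (R a).k (R a).s) + 1) → Bool =>
        F (OC V W ρ E Lo O (cor V W ρ E Lo κ P (ex2 Λ (omg (lam (R a).k (R a).s)) y))
          fun w => ex2 Λ (omg (lam (R a).k (R a).s)) y w 0)) ≤ 1 / 2 ^ (3 * (R a).s) := by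
    have e1 : ∑ P : (∀ i : {a // a ∈ E}, Cx V W ρ i.1), (∏ i, v i (P i)) ≤ 1 := by
      rw [FX3.prod_sum_pi (fun i p => v i p)]
      exact Finset.prod_le_one (fun i _ => Finset.sum_nonneg fun c _ => hv0 i c) fun i _ => hv1 i
    have e2 : (0 : ℝ) ≤ 1 / 2 ^ (3 * (R a).s) := by positivity
    calc _ ≤ ∑ P : (∀ i : {a // a ∈ E}, Cx V W ρ i.1), (∏ i, v i (P i)) *
          (1 / 2 ^ (3 * (R a).s)) := Finset.sum_le_sum fun P _ =>
            mul_le_mul_of_nonneg_left (hstep3 P) (Finset.prod_nonneg fun i _ => hv0 i _)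
      _ = (∑ P : (∀ i : {a // a ∈ E}, Cx V W ρ i.1), (∏ i, v i (P i))) *
          (1 / 2 ^ (3 * (R a).s)) := by rw [Finset.sum_mul]
      _ ≤ 1 * (1 / 2 ^ (3 * (R a).s)) := mul_le_mul_of_nonneg_right e1 e2
      _ = _ := one_mul _
  have hpow : (2 : ℝ) ^ ((omg (lam (R a).k (R a).s) + 1) * (E.filter fun i => Lo i).card) ≤
      2 ^ (R a).s := by
    refine pow_le_pow_right₀ (by norm_num) ?_
    calc (omg (lam (R a).k (R a).s) + 1) * (E.filter fun i => Lo i).card ≤
          (omg (lam (R a).k (R a).s) + 1) * 2 ^ (R a).σ := Nat.mul_le_mul_left _ hcard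
      _ = 2 ^ (R a).σ * (omg (lam (R a).k (R a).s) + 1) := Nat.mul_comm _ _
      _ ≤ (R a).s := hσ3.1
  calc _ ≤ (2 : ℝ) ^ ((omg (lam (R a).k (R a).s) + 1) * (E.filter fun i => Lo i).card) *
        (1 / 2 ^ (3 * (R a).s)) := mul_le_mul_of_nonneg_left hstep4 (by positivity)
    _ ≤ 2 ^ (R a).s * (1 / 2 ^ (3 * (R a).s)) := mul_le_mul_of_nonneg_right hpow (by positivity)
    _ = 1 / 2 ^ (2 * (R a).s) := by
        have : (2 : ℝ) ^ (3 * (R a).s) = 2 ^ (R a).s * 2 ^ (2 * (R a).s) := by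
          rw [← pow_add]
          congr 1
          ring
        rw [this]
        have h9 : (0 : ℝ) < 2 ^ (R a).s := by positivity
        have h10 : (0 : ℝ) < 2 ^ (2 * (R a).s) := by positivity
        field_simp

end Pool.Agent.H75.OM.UPB
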